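import Pool.Agent.H12.TF.Main
import Pool.Agent.H36.PP.SolRank

/-!
# Bounded Sylow subgroups from a cover

`syl_of_cover`: `U ≤ A B J` for all normal `J` of finite index, `A`, `B` of finite rank: `Syl U d`.
-/

set_option autoImplicit false

namespace H12.TF

open Subgroup
open scoped commutatorElement

variable {X : Type*} [Group X]

/-- a finite subgroup contained in the image of a group of rank `r` has `r` generators -/
theorem gen_of_frk {G Q : Type*} [Group G] [Group Q] [Finite Q] {r : ℕ} (A : Subgroup G)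
    (hA : H36.PP.FRk A r) (f : G →* Q) (S : Subgroup Q) (hS : S ≤ A.map f) :
    ∃ T : Finset Q, T.card ≤ r ∧ closure (T : Set Q) = S := by
  classical
  have h1 : H36.PP.FRk (A.map f) r :=
    H36.PP.FRk.of_surjective hA (f.subgroupMap A) (f.subgroupMap_surjective A)
  have h2 : (S.subgroupOf (A.map f)).FG := by
    have : Finite (S.subgroupOf (A.map f)) := inferInstance
    exact (Group.fg_iff_subgroup_fg _).1 (Group.fg_of_finite)
  obtain ⟨T, hT, hTc⟩ := h1 _ h2
  refine ⟨T.image (A.map f).subtype, Finset.card_image_le.trans hT, ?_⟩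
  rw [Finset.coe_image, ← MonoidHom.map_closure, hTc, subgroupOf_map_subtype, inf_eq_left]
  exact hS

theorem syl_of_cover (U A B : Subgroup X) (hU : U.Normal) {a b : ℕ}
    (hA : H36.PP.FRk A a) (hB : H36.PP.FRk B b)
    (hcov : ∀ J : Subgroup X, J.Normal → J.FiniteIndex → ∀ u ∈ U, ∃ x ∈ A, ∃ y ∈ B, ∃ j ∈ J,
      u = x * y * j) : Syl U (a + b) := by
  classical
  intro J _ hJ hJU p hp
  have hfq : Finite (X ⧸ J) := inferInstance
  set π := QuotientGroup.mk' J with hπ
  set V : Subgroup (X ⧸ J) := U.map π with hV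
  have hVn : V.Normal := hU.map _ (QuotientGroup.mk'_surjective J)
  set A₁ : Subgroup (X ⧸ J) := A.map π ⊓ (B.map π ⊔ V) with hA₁
  set Y : Subgroup (X ⧸ J) := A₁ ⊔ V with hY
  have hfac : ∀ y : Y, ∃ s ∈ A₁.subgroupOf Y, ∃ t ∈ (B.map π ⊓ Y).subgroupOf Y, y = s * t := by
    rintro ⟨y, hy⟩
    obtain ⟨s, hs, v, hv, rfl⟩ := mem_sup_of_normal_right.1 hy
    obtain ⟨u, hu, rfl⟩ := hv
    obtain ⟨c, hc, e, he, j, hj, huj⟩ := hcov J inferInstance hJ u hu
    have h1 : π u = π c * π e := by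
      rw [huj, map_mul, map_mul]
      have : π j = 1 := (QuotientGroup.eq_one_iff j).2 hj
      rw [this, mul_one]
    have hcA : π c ∈ A₁ := by
      refine mem_inf.2 ⟨mem_map_of_mem _ hc, ?_⟩
      have h2 : π c = π u * (π e)⁻¹ := by rw [h1, mul_inv_cancel_right]
      rw [h2]
      exact mul_mem (mem_sup_right (mem_map_of_mem _ hu))
        (mem_sup_left (inv_mem (mem_map_of_mem _ he)))
    have heY : π e ∈ Y := by
      have h2 : π e = (π c)⁻¹ * π u := by rw [h1, inv_mul_cancel_left]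
      rw [h2]
      exact mul_mem (mem_sup_left (inv_mem hcA)) (mem_sup_right (mem_map_of_mem _ hu))
    have hsc : s * π c ∈ A₁ := mul_mem hs hcA
    refine ⟨⟨s * π c, mem_sup_left hsc⟩, mem_subgroupOf.2 hsc, ⟨π e, heY⟩,
      mem_subgroupOf.2 (mem_inf.2 ⟨mem_map_of_mem _ he, heY⟩), ?_⟩
    refine Subtype.ext ?_
    show s * π u = s * π c * π e
    rw [h1, mul_assoc]
  obtain ⟨P, PA, PB, hP, hidx, hPA, hPB, hPAP, hPBP, hPs⟩ := sylow_fact _ _ hfac hp
  refine ⟨Y, P, le_sup_right, hP, hidx, ?_⟩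
  -- generators
  obtain ⟨S, hS, hSc⟩ := gen_of_frk A hA π (PA.map Y.subtype) (by
    rintro _ ⟨z, hz, rfl⟩
    exact (mem_inf.1 (mem_subgroupOf.1 (hPA hz))).1)
  obtain ⟨T, hT, hTc⟩ := gen_of_frk B hB π (PB.map Y.subtype) (by
    rintro _ ⟨z, hz, rfl⟩
    exact (mem_inf.1 (mem_subgroupOf.1 (hPB hz))).1)
  let ι : P →* X ⧸ J := Y.subtype.comp P.subtype
  have hι : Function.Injective ι := fun x y h => Subtype.ext (Subtype.ext h)
  have hSP : ∀ s ∈ S, s ∈ ι.range := by
    intro s hs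
    have h1 : s ∈ PA.map Y.subtype := hSc ▸ subset_closure hs
    obtain ⟨z, hz, rfl⟩ := h1
    exact ⟨⟨z, hPAP hz⟩, rfl⟩
  have hTP : ∀ s ∈ T, s ∈ ι.range := by
    intro s hs
    have h1 : s ∈ PB.map Y.subtype := hTc ▸ subset_closure hs
    obtain ⟨z, hz, rfl⟩ := h1
    exact ⟨⟨z, hPBP hz⟩, rfl⟩
  refine ⟨(S ∪ T).preimage ι hι.injOn, ?_, ?_⟩
  · refine le_trans ?_ ((Finset.card_union_le S T).trans (Nat.add_le_add hS hT))
    exact Finset.card_le_card_of_injOn ι (fun x hx => Finset.mem_preimage.1 hx) hι.injOn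
  · rw [eq_top_iff]
    intro x _
    have h1 : (closure (((S ∪ T).preimage ι hι.injOn : Finset P) : Set P)).map ι =
        closure ((S ∪ T : Finset (X ⧸ J)) : Set (X ⧸ J)) := by
      rw [MonoidHom.map_closure]
      congr 1
      ext z
      constructor
      · rintro ⟨w, hw, rfl⟩
        exact Finset.mem_preimage.1 hw
      · intro hz
        have hz' : z ∈ S ∪ T := hz
        rcases Finset.mem_union.1 hz' with h | h
        · obtain ⟨w, rfl⟩ := hSP z h
          exact ⟨w, Finset.mem_preimage.2 hz', rfl⟩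
        · obtain ⟨w, rfl⟩ := hTP z h
          exact ⟨w, Finset.mem_preimage.2 hz', rfl⟩
    have h2 : ι x ∈ closure ((S ∪ T : Finset (X ⧸ J)) : Set (X ⧸ J)) := by
      rw [Finset.coe_union, Subgroup.closure_union, hSc, hTc, ← Subgroup.map_sup]
      exact mem_map_of_mem _ (hPs x.2)
    rw [← h1] at h2
    obtain ⟨y, hy, hyx⟩ := h2
    rw [← hι hyx]
    exact hy

end H12.TF
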