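import Pool.Agent.H12.TF.Main

/-!
# Simple sections of order prime to the small primes

`ASec n G`: every finite simple section of `G` of order prime to all primes `≤ n` is commutative (for
`n ≥ 2` this holds for every group by the theorem of Feit and Thompson).
`tf_sol`: under `ASec n X` there is a normal subgroup `X₁ ≤ U` of finite index whose images in all
finite quotients of `X` are soluble.
-/

set_option autoImplicit false

universe u v

namespace H12.TF

open Subgroup
open scoped commutatorElement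

/-- every finite simple section of order prime to the primes `≤ n` is commutative -/
def ASec (n : ℕ) (G : Type*) [Group G] : Prop :=
  ∀ (H : Subgroup G) (K : Subgroup H) [K.Normal], K.FiniteIndex →
    (∀ p : ℕ, p.Prime → p ≤ n → ¬ p ∣ K.index) → IsSimpleGroup (H ⧸ K) →
      ∀ x y : H ⧸ K, x * y = y * x

/-- sections of sections -/
theorem ASec.section' {n : ℕ} {G : Type*} {Q : Type*} [Group G] [Group Q] (hG : ASec n G)
    (D : Subgroup G) (f : D →* Q) (hf : Function.Surjective f) : ASec n Q := by
  intro H K _ hK hp hs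
  set H₁ : Subgroup G := (H.comap f).map D.subtype with hH₁
  let e : H.comap f ≃* H₁ := (H.comap f).equivMapOfInjective D.subtype D.subtype_injective
  let r : H.comap f →* H := f.subgroupComap H
  have hr : Function.Surjective r := by
    rintro ⟨y, hy⟩
    obtain ⟨x, rfl⟩ := hf y
    exact ⟨⟨x, hy⟩, rfl⟩
  let φ : H₁ →* H ⧸ K := (QuotientGroup.mk' K).comp (r.comp e.symm.toMonoidHom)
  have hφ : Function.Surjective φ := by
    intro y
    obtain ⟨y, rfl⟩ := QuotientGroup.mk_surjective y
    obtain ⟨x, rfl⟩ := hr y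
    refine ⟨e x, ?_⟩
    show ((r (e.symm (e x)) : H) : H ⧸ K) = _
    rw [MulEquiv.symm_apply_apply]
  let E : H₁ ⧸ φ.ker ≃* H ⧸ K := QuotientGroup.quotientKerEquivOfSurjective φ hφ
  have hidx : φ.ker.index = K.index := Nat.card_congr E.toEquiv
  have hfi : φ.ker.FiniteIndex := ⟨by rw [hidx]; exact hK.index_ne_zero⟩
  have hsim : IsSimpleGroup (H₁ ⧸ φ.ker) := by
    have : Nontrivial (H₁ ⧸ φ.ker) := E.toEquiv.nontrivial
    exact IsSimpleGroup.isSimpleGroup_of_surjective E.symm.toMonoidHom E.symm.surjective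
  have h1 := hG H₁ φ.ker hfi (fun p h2 h3 => by rw [hidx]; exact hp p h2 h3) hsim
  intro x y
  obtain ⟨x, rfl⟩ := E.surjective x
  obtain ⟨y, rfl⟩ := E.surjective y
  rw [← map_mul, ← map_mul, h1]

theorem sol_of_asec (n : ℕ) : ∀ (m : ℕ) (M : Type u) [Group M] [Finite M], Nat.card M ≤ m →
    (∀ p : ℕ, p.Prime → p ≤ n → ¬ p ∣ Nat.card M) → ASec n M → Group.IsSolvable M := by
  intro m
  induction m with
  | zero =>
    intro M _ _ hm
    exact absurd (Nat.card_pos (α := M)) (by omega)
  | succ m ih =>
    intro M _ _ hm hp hA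
    by_cases hs : IsSimpleGroup M
    · have h1 : IsSimpleGroup ((⊤ : Subgroup M) ⧸ (⊥ : Subgroup (⊤ : Subgroup M))) := by
        let E : M ≃* (⊤ : Subgroup M) ⧸ (⊥ : Subgroup (⊤ : Subgroup M)) :=
          Subgroup.topEquiv.symm.trans QuotientGroup.quotientBot.symm
        have : Nontrivial ((⊤ : Subgroup M) ⧸ (⊥ : Subgroup (⊤ : Subgroup M))) :=
          E.symm.toEquiv.nontrivial
        exact IsSimpleGroup.isSimpleGroup_of_surjective E.toMonoidHom E.surjective
      have h2 := hA ⊤ ⊥ inferInstance (fun p h3 h4 => by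
        rw [index_bot, card_top]; exact hp p h3 h4) h1
      apply Group.isSolvable_of_comm
      intro a b
      have h3 := h2 ((⟨a, mem_top a⟩ : (⊤ : Subgroup M)) : (⊤ : Subgroup M) ⧸ (⊥ : Subgroup (⊤ : Subgroup M)))
        ((⟨b, mem_top b⟩ : (⊤ : Subgroup M)) : (⊤ : Subgroup M) ⧸ (⊥ : Subgroup (⊤ : Subgroup M)))
      rw [← QuotientGroup.mk_mul, ← QuotientGroup.mk_mul, QuotientGroup.eq, mem_bot,
        inv_mul_eq_one] at h3
      exact congrArg Subtype.val h3
    · by_cases hnt : Nontrivial M
      · -- a proper nontrivial normal subgroup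
        obtain ⟨N, hN, hNb, hNt⟩ : ∃ N : Subgroup M, N.Normal ∧ N ≠ ⊥ ∧ N ≠ ⊤ := by
          by_contra hcon
          push Not at hcon
          apply hs
          refine ⟨fun N hN => ?_⟩
          by_cases hb : N = ⊥
          · exact Or.inl hb
          · exact Or.inr (hcon N hN hb)
        have hc : Nat.card M = Nat.card (M ⧸ N) * Nat.card N :=
          card_eq_card_quotient_mul_card_subgroup N
        have hN1 : 1 < Nat.card N := (one_lt_card_iff_ne_bot N).2 hNb
        have hQ1 : 1 < Nat.card (M ⧸ N) := by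
          have h1 : N.index ≠ 1 := fun h => hNt (index_eq_one.1 h)
          have h2 : N.index ≠ 0 := (inferInstance : N.FiniteIndex).index_ne_zero
          have h3 : Nat.card (M ⧸ N) = N.index := rfl
          omega
        have hNm : Nat.card N ≤ m := by nlinarith
        have hQm : Nat.card (M ⧸ N) ≤ m := by nlinarith
        have h1 : Group.IsSolvable N := by
          refine ih N hNm (fun p h2 h3 h4 => hp p h2 h3 (hc ▸ h4.mul_left _)) ?_
          exact hA.section' N (MonoidHom.id N) Function.surjective_id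
        have h2 : Group.IsSolvable (M ⧸ N) := by
          refine ih (M ⧸ N) hQm (fun p h2 h3 h4 => hp p h2 h3 (hc ▸ h4.mul_right _)) ?_
          refine hA.section' ⊤ ((QuotientGroup.mk' N).comp (⊤ : Subgroup M).subtype) ?_
          intro y
          obtain ⟨x, rfl⟩ := QuotientGroup.mk_surjective y
          exact ⟨⟨x, mem_top x⟩, rfl⟩
        refine Group.isSolvable_of_ker_le_range N.subtype (QuotientGroup.mk' N) ?_
        rw [QuotientGroup.ker_mk', Subgroup.range_subtype]
      · rw [not_nontrivial_iff_subsingleton] at hnt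
        exact Group.isSolvable_of_comm fun a b => Subsingleton.elim _ _

theorem tf_sol {X : Type u} [Group X] {U : Subgroup X} (hU : U.Normal) (hUf : U.FiniteIndex)
    {d : ℕ} (hd : Syl U d) (n : ℕ) (hA : ASec n X) :
    ∃ X₁ : Subgroup X, X₁.Normal ∧ X₁.FiniteIndex ∧ X₁ ≤ U ∧
      ∀ (J : Subgroup X) [J.Normal], J.FiniteIndex →
        Group.IsSolvable (X₁.map (QuotientGroup.mk' J)) := by
  obtain ⟨X₁, hX₁, hX₁f, hX₁U, hbad⟩ := tf_main hU hUf hd n
  refine ⟨X₁, hX₁, hX₁f, hX₁U, fun J hJ hJf => ?_⟩
  have key : ∀ (m : ℕ) (N : Subgroup X), N.Normal → N.FiniteIndex → N ≤ X₁ →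
      N.relIndex X₁ ≤ m → ∀ [(N.subgroupOf X₁).Normal], Group.IsSolvable (X₁ ⧸ N.subgroupOf X₁) := by
    intro m
    induction m with
    | zero =>
      intro N _ hNf _ hm
      exfalso
      have h1 : N.relIndex X₁ ≠ 0 := (inferInstance : (N.subgroupOf X₁).FiniteIndex).index_ne_zero
      omega
    | succ m ih =>
      intro N hN hNf hNX hm hNn
      have hfin : N.relIndex X₁ ≠ 0 := (inferInstance : (N.subgroupOf X₁).FiniteIndex).index_ne_zero
      by_cases heq : N = X₁
      · have h1 : N.subgroupOf X₁ = ⊤ := by rw [subgroupOf_eq_top, heq]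
        have h2 : Subsingleton (X₁ ⧸ N.subgroupOf X₁) := by
          rw [QuotientGroup.subsingleton_iff]; exact h1
        exact Group.isSolvable_of_comm fun a b => Subsingleton.elim _ _
      obtain ⟨L, hLX, hch⟩ := exists_chief hX₁ hN (lt_of_le_of_ne hNX heq) hfin
      have hL := hch.hn
      have hLf : L.FiniteIndex := finiteIndex_of_le hch.lt.le
      have hLn : (L.subgroupOf X₁).Normal := Normal.subgroupOf hL X₁
      have hNLn : (N.subgroupOf L).Normal := Normal.subgroupOf hN L
      have h1 : Group.IsSolvable (X₁ ⧸ L.subgroupOf X₁) := by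
        refine ih L hL hLf hLX ?_
        have h2 := relIndex_mul_relIndex N L X₁ hch.lt.le hLX
        have h3 : N.relIndex L ≠ 1 := fun h => absurd (relIndex_eq_one.1 h) (not_le_of_gt hch.lt)
        have h4 : N.relIndex L ≠ 0 := by
          intro h
          rw [h, zero_mul] at h2
          exact hfin h2.symm
        have h5 : L.relIndex X₁ ≠ 0 := by
          intro h
          rw [h, mul_zero] at h2
          exact hfin h2.symm
        have h6 : 2 * L.relIndex X₁ ≤ N.relIndex L * L.relIndex X₁ :=
          Nat.mul_le_mul_right _ (by omega)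
        omega
      have hfL : Finite (L ⧸ N.subgroupOf L) := inferInstance
      have h2 : Group.IsSolvable (L ⧸ N.subgroupOf L) := by
        by_cases hab : ∀ x ∈ L, ∀ y ∈ L, ⁅x, y⁆ ∈ N
        · apply Group.isSolvable_of_comm
          intro a b
          obtain ⟨a, rfl⟩ := QuotientGroup.mk_surjective a
          obtain ⟨b, rfl⟩ := QuotientGroup.mk_surjective b
          rw [← commutatorElement_eq_one_iff_mul_comm]
          have h3 : ((⁅a, b⁆ : L) : L ⧸ N.subgroupOf L) = 1 :=
            (QuotientGroup.eq_one_iff _).2 (mem_subgroupOf.2 (hab a a.2 b b.2))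
          exact h3
        · refine sol_of_asec n _ (L ⧸ N.subgroupOf L) le_rfl ?_ ?_
          · intro p hp hpn hd'
            exact hbad N L hNf hLX hch hab p hp hpn hd'
          · exact hA.section' L (QuotientGroup.mk' _) (QuotientGroup.mk'_surjective _)
      let f : L ⧸ N.subgroupOf L →* X₁ ⧸ N.subgroupOf X₁ :=
        QuotientGroup.map _ _ (Subgroup.inclusion hLX) (fun x hx => by
          rw [mem_comap, mem_subgroupOf]
          exact mem_subgroupOf.1 hx)
      let g : X₁ ⧸ N.subgroupOf X₁ →* X₁ ⧸ L.subgroupOf X₁ :=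
        QuotientGroup.map _ _ (MonoidHom.id X₁) (fun x hx => by
          rw [mem_comap, mem_subgroupOf]
          exact hch.lt.le (mem_subgroupOf.1 hx))
      refine Group.isSolvable_of_ker_le_range f g ?_
      intro y hy
      obtain ⟨x, rfl⟩ := QuotientGroup.mk_surjective y
      rw [MonoidHom.mem_ker] at hy
      have h3 : x ∈ L.subgroupOf X₁ := (QuotientGroup.eq_one_iff x).1 hy
      exact ⟨((⟨(x : X), mem_subgroupOf.1 h3⟩ : L) : L ⧸ N.subgroupOf L), rfl⟩
  have hN : (J ⊓ X₁).Normal := inferInstance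
  have hNn : ((J ⊓ X₁).subgroupOf X₁).Normal := Normal.subgroupOf hN X₁
  have h1 := key ((J ⊓ X₁).relIndex X₁) (J ⊓ X₁) hN inferInstance inf_le_right le_rfl
  let r : X₁ →* X₁.map (QuotientGroup.mk' J) := (QuotientGroup.mk' J).subgroupMap X₁
  have hr : Function.Surjective r := (QuotientGroup.mk' J).subgroupMap_surjective X₁
  let F : X₁ ⧸ (J ⊓ X₁).subgroupOf X₁ →* X₁.map (QuotientGroup.mk' J) :=
    QuotientGroup.lift _ r (fun x hx => by
      refine Subtype.ext ?_
      show ((x : X) : X ⧸ J) = 1
      exact (QuotientGroup.eq_one_iff _).2 (mem_inf.1 (mem_subgroupOf.1 hx)).1)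
  refine Group.isSolvable_of_surjective (f := F) ?_
  intro y
  obtain ⟨x, rfl⟩ := hr y
  exact ⟨(x : X₁ ⧸ (J ⊓ X₁).subgroupOf X₁), rfl⟩

end H12.TF
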