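import Pool.Agent.H12.TF.Tate2

/-!
# Sylow subgroups of factorised finite groups

`sylow_fact`: `G = A B` finite: some Sylow `p`-subgroup `P` of `G` is generated by a subgroup of `A`
and a subgroup of `B` (Wielandt).
`frat_index`: a group generated by `d` elements has Frattini type index at most `p^d`.
-/

set_option autoImplicit false

namespace H12.TF

open Subgroup
open scoped commutatorElement Pointwise

/-- `G = A B`, `SA` and `SB` subgroups of `A`, `B` contained in `P`, of maximal order -/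
theorem fact_count {G : Type*} [Group G] [Finite G] (A B PA PB P : Subgroup G)
    (hf : ∀ g : G, ∃ a ∈ A, ∃ b ∈ B, g = a * b) {p : ℕ} (hp : p.Prime)
    (hPA : PA ≤ P) (hPB : PB ≤ P) (hPAA : PA ≤ A) (hPBB : PB ≤ B) (hP : IsPGroup p P)
    (cA : Nat.card PA = p ^ (Nat.card A).factorization p)
    (cB : Nat.card PB = p ^ (Nat.card B).factorization p)
    (cP : Nat.card P = p ^ (Nat.card G).factorization p) :
    ∀ x ∈ P, ∃ a ∈ PA, ∃ b ∈ PB, x = a * b := by
  classical
  have : _root_.Fact p.Prime := ⟨hp⟩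
  -- `|A| |B| = |G| |A ⊓ B|`
  have h1 : Nat.card A * Nat.card B = Nat.card G * Nat.card (A ⊓ B : Subgroup G) := by
    have hs : Function.Surjective (fun z : A × B => (z.1 : G) * z.2) := by
      intro g
      obtain ⟨a, ha, b, hb, rfl⟩ := hf g
      exact ⟨(⟨a, ha⟩, ⟨b, hb⟩), rfl⟩
    choose F hF' using hs
    have hF : ∀ g : G, ((F g).1 : G) * (F g).2 = g := hF'
    let e : A × B ≃ G × (A ⊓ B : Subgroup G) :=
      { toFun := fun z => ((z.1 : G) * z.2,
          ⟨((F ((z.1 : G) * z.2)).1 : G)⁻¹ * z.1, by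
            refine mem_inf.2 ⟨A.mul_mem (A.inv_mem (F ((z.1 : G) * z.2)).1.2) z.1.2, ?_⟩
            have h2 := hF ((z.1 : G) * z.2)
            have h3 : ((F ((z.1 : G) * z.2)).1 : G)⁻¹ * z.1 =
                (F ((z.1 : G) * z.2)).2 * (z.2 : G)⁻¹ := by
              rw [inv_mul_eq_iff_eq_mul, ← mul_assoc, h2, mul_inv_cancel_right]
            rw [h3]
            exact B.mul_mem (F ((z.1 : G) * z.2)).2.2 (B.inv_mem z.2.2)⟩)
        invFun := fun w => ((F w.1).1 * ⟨w.2, w.2.2.1⟩, ⟨(w.2 : G)⁻¹, B.inv_mem w.2.2.2⟩ * (F w.1).2)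
        left_inv := by
          rintro ⟨a, b⟩
          refine Prod.ext (Subtype.ext ?_) (Subtype.ext ?_)
          · show ((F ((a : G) * b)).1 : G) * (((F ((a : G) * b)).1 : G)⁻¹ * a) = a
            group
          · show (((F ((a : G) * b)).1 : G)⁻¹ * a)⁻¹ * ((F ((a : G) * b)).2 : G) = b
            have h2 := hF ((a : G) * b)
            rw [mul_inv_rev, inv_inv, mul_assoc, h2]
            group
        right_inv := by
          rintro ⟨g, c⟩
          have h2 : (((F g).1 * ⟨c, c.2.1⟩ : A) : G) *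
              ((⟨(c : G)⁻¹, inv_mem c.2.2⟩ * (F g).2 : B) : G) = g := by
            show ((F g).1 : G) * c * ((c : G)⁻¹ * (F g).2) = g
            rw [mul_assoc, mul_inv_cancel_left]
            exact hF g
          refine Prod.ext h2 (Subtype.ext ?_)
          show ((F ((((F g).1 * ⟨c, c.2.1⟩ : A) : G) *
              ((⟨(c : G)⁻¹, inv_mem c.2.2⟩ * (F g).2 : B) : G))).1 : G)⁻¹ * (((F g).1 : G) * c) = c
          rw [h2]
          group }
    rw [← Nat.card_prod, Nat.card_congr e, Nat.card_prod]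
  have hcap : Nat.card (PA ⊓ PB : Subgroup G) ≤ p ^ (Nat.card (A ⊓ B : Subgroup G)).factorization p := by
    have h2 : IsPGroup p (PA ⊓ PB : Subgroup G) := (hP.to_le (inf_le_left.trans hPA))
    obtain ⟨k, hk⟩ := IsPGroup.iff_card.1 h2
    rw [hk]
    refine Nat.pow_le_pow_right hp.pos ?_
    rw [← Nat.Prime.pow_dvd_iff_le_factorization hp Nat.card_pos.ne', ← hk]
    exact card_dvd_of_le (inf_le_inf hPAA hPBB)
  have hlow : Nat.card P * Nat.card (PA ⊓ PB : Subgroup G) ≤ Nat.card PA * Nat.card PB := by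
    have h2 : (Nat.card A * Nat.card B).factorization p =
        (Nat.card G * Nat.card (A ⊓ B : Subgroup G)).factorization p := by rw [h1]
    rw [Nat.factorization_mul Nat.card_pos.ne' Nat.card_pos.ne',
      Nat.factorization_mul Nat.card_pos.ne' Nat.card_pos.ne', Finsupp.add_apply,
      Finsupp.add_apply] at h2
    rw [cA, cB, cP, ← pow_add, h2, pow_add]
    exact Nat.mul_le_mul_left _ hcap
  -- the image of the multiplication map
  have : Fintype G := Fintype.ofFinite G
  set I : Finset G := (PA : Set G).toFinset ×ˢ (PB : Set G).toFinset |>.image (fun z => z.1 * z.2)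
    with hI
  have hIP : I ⊆ (P : Set G).toFinset := by
    intro x hx
    rw [hI, Finset.mem_image] at hx
    obtain ⟨z, hz, rfl⟩ := hx
    rw [Finset.mem_product, Set.mem_toFinset, Set.mem_toFinset] at hz
    rw [Set.mem_toFinset]
    exact mul_mem (hPA hz.1) (hPB hz.2)
  have hcount : ((PA : Set G).toFinset ×ˢ (PB : Set G).toFinset).card ≤
      Nat.card (PA ⊓ PB : Subgroup G) * I.card := by
    refine Finset.card_le_mul_card_image _ _ ?_
    intro x hx
    rw [Finset.mem_image] at hx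
    obtain ⟨z₀, hz₀, rfl⟩ := hx
    rw [Finset.mem_product, Set.mem_toFinset, Set.mem_toFinset] at hz₀
    have h3 : Nat.card (PA ⊓ PB : Subgroup G) = ((PA ⊓ PB : Subgroup G) : Set G).toFinset.card := by
      rw [Set.toFinset_card, Nat.card_eq_fintype_card]
      rfl
    rw [h3]
    refine Finset.card_le_card_of_injOn (fun z => z₀.1⁻¹ * z.1) ?_ ?_
    · intro z hz
      rw [Finset.mem_coe, Finset.mem_filter, Finset.mem_product, Set.mem_toFinset,
        Set.mem_toFinset] at hz
      rw [Set.coe_toFinset]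
      refine mem_inf.2 ⟨PA.mul_mem (PA.inv_mem hz₀.1) hz.1.1, ?_⟩
      have h4 : z₀.1⁻¹ * z.1 = z₀.2 * z.2⁻¹ := by
        rw [inv_mul_eq_iff_eq_mul, ← mul_assoc, ← hz.2, mul_inv_cancel_right]
      show z₀.1⁻¹ * z.1 ∈ PB
      rw [h4]
      exact mul_mem hz₀.2 (inv_mem hz.1.2)
    · intro z hz w hw hzw
      rw [Finset.mem_coe, Finset.mem_filter] at hz hw
      have h5 : z.1 = w.1 := mul_left_cancel (show z₀.1⁻¹ * z.1 = z₀.1⁻¹ * w.1 from hzw)
      have h6 : z.1 * z.2 = w.1 * w.2 := hz.2.trans hw.2.symm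
      rw [h5] at h6
      exact Prod.ext h5 (mul_left_cancel h6)
  have hIc : (P : Set G).toFinset.card ≤ I.card := by
    have e1 : (P : Set G).toFinset.card = Nat.card P := by
      rw [Set.toFinset_card, Nat.card_eq_fintype_card]
      rfl
    have e2 : (PA : Set G).toFinset.card = Nat.card PA := by
      rw [Set.toFinset_card, Nat.card_eq_fintype_card]
      rfl
    have e3 : (PB : Set G).toFinset.card = Nat.card PB := by
      rw [Set.toFinset_card, Nat.card_eq_fintype_card]
      rfl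
    rw [Finset.card_product, e2, e3] at hcount
    rw [e1]
    have h7 : Nat.card (PA ⊓ PB : Subgroup G) * Nat.card P ≤
        Nat.card (PA ⊓ PB : Subgroup G) * I.card := by
      rw [mul_comm]
      exact hlow.trans hcount
    exact Nat.le_of_mul_le_mul_left h7 Nat.card_pos
  have hIeq := Finset.eq_of_subset_of_card_le hIP hIc
  intro x hx
  have h8 : x ∈ I := by
    rw [hIeq, Set.mem_toFinset]
    exact hx
  rw [hI, Finset.mem_image] at h8
  obtain ⟨z, hz, rfl⟩ := h8
  rw [Finset.mem_product, Set.mem_toFinset, Set.mem_toFinset] at hz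
  exact ⟨z.1, hz.1, z.2, hz.2, rfl⟩

/-- a Sylow subgroup of a subgroup, inside the ambient group -/
theorem exists_syl {G : Type*} [Group G] [Finite G] {p : ℕ} (hp : p.Prime) (A : Subgroup G) :
    ∃ S ≤ A, IsPGroup p S ∧ Nat.card S = p ^ (Nat.card A).factorization p := by
  have : _root_.Fact p.Prime := ⟨hp⟩
  let S : Sylow p A := default
  refine ⟨(S : Subgroup A).map A.subtype, map_subtype_le _, S.isPGroup'.map A.subtype, ?_⟩
  rw [card_map_of_injective A.subtype_injective]
  exact S.card_eq_multiplicity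

theorem sylow_fact {G : Type*} [Group G] [Finite G] (A B : Subgroup G)
    (hf : ∀ g : G, ∃ a ∈ A, ∃ b ∈ B, g = a * b) {p : ℕ} (hp : p.Prime) :
    ∃ P PA PB : Subgroup G, IsPGroup p P ∧ ¬ p ∣ P.index ∧ PA ≤ A ∧ PB ≤ B ∧ PA ≤ P ∧ PB ≤ P ∧
      P ≤ PA ⊔ PB := by
  have : _root_.Fact p.Prime := ⟨hp⟩
  obtain ⟨SA, hSA, hSAp, hSAc⟩ := exists_syl hp A
  obtain ⟨SB, hSB, hSBp, hSBc⟩ := exists_syl hp B
  obtain ⟨P1, hP1⟩ := hSAp.exists_le_sylow
  obtain ⟨P2, hP2⟩ := hSBp.exists_le_sylow
  obtain ⟨g, hg⟩ := MulAction.exists_smul_eq G P1 P2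
  obtain ⟨a, ha, b, hb, hab⟩ := hf g⁻¹
  -- `g = b⁻¹ a⁻¹`
  have hg' : g = b⁻¹ * a⁻¹ := by rw [← mul_inv_rev, ← hab, inv_inv]
  set P : Sylow p G := a⁻¹ • P1 with hP
  have hPb : P = b • P2 := by
    rw [hP, ← hg, hg', mul_smul, smul_inv_smul]
  have hconjA : MulAut.conj a⁻¹ • A = A := conj_smul_eq_self_of_mem (inv_mem ha)
  have hconjB : MulAut.conj b • B = B := conj_smul_eq_self_of_mem hb
  have hcc : ∀ (x : G) (S : Subgroup G), Nat.card (MulAut.conj x • S : Subgroup G) = Nat.card S := by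
    intro x S
    exact (Nat.card_congr (equivSMul (MulAut.conj x) S).toEquiv).symm
  have h1 : MulAut.conj a⁻¹ • SA ≤ (P : Subgroup G) := by
    rw [hP, Sylow.coe_subgroup_smul]
    exact pointwise_smul_le_pointwise_smul_iff.2 hP1
  have h2 : MulAut.conj b • SB ≤ (P : Subgroup G) := by
    rw [hPb, Sylow.coe_subgroup_smul]
    exact pointwise_smul_le_pointwise_smul_iff.2 hP2
  have h3 : MulAut.conj a⁻¹ • SA ≤ A := by
    rw [← hconjA]
    exact pointwise_smul_le_pointwise_smul_iff.2 hSA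
  have h4 : MulAut.conj b • SB ≤ B := by
    conv_rhs => rw [← hconjB]
    exact pointwise_smul_le_pointwise_smul_iff.2 hSB
  refine ⟨P, MulAut.conj a⁻¹ • SA, MulAut.conj b • SB, P.isPGroup', P.not_dvd_index, h3, h4, h1,
    h2, ?_⟩
  intro x hx
  obtain ⟨u, hu, v, hv, rfl⟩ := fact_count A B _ _ (P : Subgroup G) hf hp h1 h2 h3 h4 P.isPGroup'
    (by rw [hcc, hSAc]) (by rw [hcc, hSBc]) P.card_eq_multiplicity x hx
  exact mul_mem ((le_sup_left : MulAut.conj a⁻¹ • SA ≤ _) hu) ((le_sup_right : MulAut.conj b • SB ≤ _) hv)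

theorem card_closure_le {V : Type*} [Group V] [Finite V] {p : ℕ} (hp0 : 0 < p)
    (hc : ∀ x y : V, x * y = y * x)
    (he : ∀ x : V, x ^ p = 1) (S : Finset V) :
    Nat.card (closure (S : Set V)) ≤ p ^ S.card := by
  classical
  let _ : CommGroup V := { ‹Group V› with mul_comm := hc }
  induction S using Finset.induction_on with
  | empty => simp
  | insert a S ha ih =>
    rw [Finset.card_insert_of_notMem ha, Finset.coe_insert, pow_succ, mul_comm]
    have h1 : closure (insert a (S : Set V)) = zpowers a ⊔ closure (S : Set V) := by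
      rw [← Set.singleton_union, Subgroup.closure_union, zpowers_eq_closure]
    rw [h1]
    have h2 : Function.Surjective (fun z : zpowers a × closure (S : Set V) =>
        (⟨z.1 * z.2, mul_mem_sup z.1.2 z.2.2⟩ : (zpowers a ⊔ closure (S : Set V) : Subgroup V))) := by
      rintro ⟨x, hx⟩
      obtain ⟨y, hy, z, hz, rfl⟩ := mem_sup.1 hx
      exact ⟨(⟨y, hy⟩, ⟨z, hz⟩), rfl⟩
    refine (Nat.card_le_card_of_surjective _ h2).trans ?_
    rw [Nat.card_prod]
    refine Nat.mul_le_mul ?_ ih
    rw [Nat.card_zpowers]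
    exact orderOf_le_of_pow_eq_one hp0 (he a)

/-- the index of the Frattini type subgroup -/
theorem frat_index {P : Type*} [Group P] [Finite P] {p : ℕ} (hp : p.Prime) (S : Finset P)
    (hS : closure (S : Set P) = ⊤) : (frat p P).index ≤ p ^ S.card := by
  classical
  have h1 : ∀ x y : P ⧸ frat p P, x * y = y * x := by
    intro x y
    obtain ⟨x, rfl⟩ := QuotientGroup.mk_surjective x
    obtain ⟨y, rfl⟩ := QuotientGroup.mk_surjective y
    rw [← commutatorElement_eq_one_iff_mul_comm]
    exact (QuotientGroup.eq_one_iff _).2 (subset_closure (Or.inl ⟨x, y, rfl⟩))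
  have h2 : ∀ x : P ⧸ frat p P, x ^ p = 1 := by
    intro x
    obtain ⟨x, rfl⟩ := QuotientGroup.mk_surjective x
    exact (QuotientGroup.eq_one_iff _).2 (subset_closure (Or.inr ⟨x, rfl⟩))
  have h3 := card_closure_le hp.pos h1 h2 (S.image (QuotientGroup.mk' (frat p P)))
  have h4 : closure ((S.image (QuotientGroup.mk' (frat p P)) : Finset (P ⧸ frat p P)) :
      Set (P ⧸ frat p P)) = ⊤ := by
    rw [Finset.coe_image, ← MonoidHom.map_closure, hS, ← MonoidHom.range_eq_map,
      MonoidHom.range_eq_top]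
    exact QuotientGroup.mk'_surjective _
  rw [h4, card_top] at h3
  refine h3.trans (Nat.pow_le_pow_right hp.pos Finset.card_image_le)

end H12.TF
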