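import Mathlib

/-!
# Chief factors and their centralisers

`Chief K H`   `H / K` is a chief factor of `X`
`IsCent C K H` `C` is the centraliser of `H / K`
`Bad p K H`   `H / K` is not abelian and `p` divides its order
`count`       counting centralisers of chief factors with a weight function
-/

set_option autoImplicit false

namespace H12.TF

open Subgroup
open scoped commutatorElement

variable {X : Type*} [Group X]

/-- `H / K` is a chief factor -/
structure Chief (K H : Subgroup X) : Prop where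
  kn : K.Normal
  hn : H.Normal
  lt : K < H
  max : ∀ L : Subgroup X, L.Normal → K ≤ L → L ≤ H → L = K ∨ L = H

/-- `C` is the centraliser of `H / K` -/
def IsCent (C K H : Subgroup X) : Prop := ∀ x : X, x ∈ C ↔ ∀ h ∈ H, ⁅x, h⁆ ∈ K

/-- `H / K` is not abelian and `p` divides its order -/
def Bad (p : ℕ) (K H : Subgroup X) : Prop :=
  (¬ ∀ x ∈ H, ∀ y ∈ H, ⁅x, y⁆ ∈ K) ∧ p ∣ K.relIndex H

theorem comm_mem {H : Subgroup X} (hH : H.Normal) (x : X) {h : X} (hh : h ∈ H) :
    ⁅x, h⁆ ∈ H := by
  rw [commutatorElement_def]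
  exact mul_mem (hH.conj_mem h hh x) (inv_mem hh)

theorem comm_mem' {K : Subgroup X} (hK : K.Normal) {x : X} (hx : x ∈ K) (h : X) :
    ⁅x, h⁆ ∈ K := by
  rw [commutatorElement_def, mul_assoc, mul_assoc, ← mul_assoc h]
  exact mul_mem hx (hK.conj_mem _ (inv_mem hx) h)

/-- perspective factors `A / (A ⊓ B)` and `(A ⊔ B) / B` have the same centralisers -/
theorem cent_persp {A B : Subgroup X} (hA : A.Normal) (hB : B.Normal) (x : X) :
    (∀ h ∈ A, ⁅x, h⁆ ∈ A ⊓ B) ↔ ∀ h ∈ A ⊔ B, ⁅x, h⁆ ∈ B := by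
  constructor
  · intro h1 h hh
    obtain ⟨a, ha, b, hb, rfl⟩ := mem_sup_of_normal_right.1 hh
    have h2 : ⁅x, a * b⁆ = ⁅x, a⁆ * (a * ⁅x, b⁆ * a⁻¹) := by
      simp only [commutatorElement_def]; group
    rw [h2]
    exact mul_mem (mem_inf.1 (h1 a ha)).2 (hB.conj_mem _ (comm_mem hB x hb) a)
  · intro h1 h hh
    exact mem_inf.2 ⟨comm_mem hA x hh, h1 h (mem_sup_left hh)⟩

theorem ab_persp {A B : Subgroup X} (hA : A.Normal) (hB : B.Normal) :
    (∀ x ∈ A, ∀ y ∈ A, ⁅x, y⁆ ∈ A ⊓ B) ↔ ∀ x ∈ A ⊔ B, ∀ y ∈ A ⊔ B, ⁅x, y⁆ ∈ B := by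
  constructor
  · intro h1 x hx
    rw [← cent_persp hA hB x]
    intro h hh
    obtain ⟨a, ha, b, hb, rfl⟩ := mem_sup_of_normal_right.1 hx
    refine mem_inf.2 ⟨comm_mem hA _ hh, ?_⟩
    have h2 : ⁅a * b, h⁆ = (a * ⁅b, h⁆ * a⁻¹) * ⁅a, h⁆ := by
      simp only [commutatorElement_def]; group
    rw [h2]
    exact mul_mem (hB.conj_mem _ (comm_mem' hB hb h) a) (mem_inf.1 (h1 a ha h hh)).2
  · intro h1 x hx
    rw [cent_persp hA hB x]
    exact h1 x (mem_sup_left hx)

theorem relIndex_persp {A B : Subgroup X} (hB : B.Normal) :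
    (A ⊓ B).relIndex A = B.relIndex (A ⊔ B) := by
  rw [inf_relIndex_left, relIndex_sup_right]

theorem bad_persp {A B : Subgroup X} (hA : A.Normal) (hB : B.Normal) (p : ℕ) :
    Bad p (A ⊓ B) A ↔ Bad p B (A ⊔ B) := by
  unfold Bad
  rw [ab_persp hA hB, relIndex_persp hB]

theorem chief_persp {A B : Subgroup X} (hA : A.Normal) (hB : B.Normal) :
    Chief (A ⊓ B) A ↔ Chief B (A ⊔ B) := by
  constructor
  · rintro ⟨-, -, hlt, hmax⟩
    refine ⟨hB, sup_normal A B, ?_, ?_⟩
    · refine lt_of_le_of_ne le_sup_right fun h => hlt.ne ?_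
      rw [inf_eq_left, h]
      exact le_sup_left
    · intro L hL h1 h2
      rcases hmax (A ⊓ L) inferInstance (inf_le_inf_left A h1) inf_le_left with h3 | h3
      · left
        refine le_antisymm (fun x hx => ?_) h1
        obtain ⟨a, ha, b, hb, rfl⟩ := mem_sup_of_normal_right.1 (h2 hx)
        have h4 : a ∈ L := by
          have h5 := mul_mem hx (inv_mem (h1 hb))
          rwa [mul_inv_cancel_right] at h5
        have h6 : a ∈ A ⊓ B := h3 ▸ mem_inf.2 ⟨ha, h4⟩
        exact mul_mem (mem_inf.1 h6).2 hb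
      · right
        refine le_antisymm h2 (sup_le ?_ h1)
        rw [← h3]
        exact inf_le_right
  · rintro ⟨-, -, hlt, hmax⟩
    refine ⟨inferInstance, hA, ?_, ?_⟩
    · refine lt_of_le_of_ne inf_le_left fun h => hlt.ne ?_
      rw [inf_eq_left] at h
      rw [sup_eq_right.2 h]
    · intro L hL h1 h2
      rcases hmax (L ⊔ B) (sup_normal L B) le_sup_right (sup_le_sup_right h2 B) with h3 | h3
      · left
        refine le_antisymm (le_inf h2 ?_) h1
        rw [← h3]
        exact le_sup_left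
      · right
        refine le_antisymm h2 fun x hx => ?_
        have h4 : x ∈ L ⊔ B := h3 ▸ mem_sup_left hx
        obtain ⟨l, hl, b, hb, rfl⟩ := mem_sup_of_normal_right.1 h4
        have h5 : b ∈ A := by
          have h6 := mul_mem (inv_mem (h2 hl)) hx
          rwa [inv_mul_cancel_left] at h6
        exact mul_mem hl (h1 (mem_inf.2 ⟨h5, hb⟩))

/-- the centralisers of the bad chief factors between `N` and `U` -/
def Dset (p : ℕ) (U N : Subgroup X) : Set (Subgroup X) :=
  {C | ∃ K H : Subgroup X, N ≤ K ∧ H ≤ U ∧ Chief K H ∧ Bad p K H ∧ IsCent C K H}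

theorem isCent_persp {A B C : Subgroup X} (hA : A.Normal) (hB : B.Normal) :
    IsCent C (A ⊓ B) A ↔ IsCent C B (A ⊔ B) := by
  unfold IsCent
  constructor
  · intro h x
    rw [h x, cent_persp hA hB]
  · intro h x
    rw [h x, cent_persp hA hB]

/-- the key step -/
theorem dset_step {p : ℕ} {U N L C : Subgroup X} (hNL : Chief N L) (hLU : L ≤ U)
    (hC : C ∈ Dset p U N) : C ∈ Dset p U L ∨ (Bad p N L ∧ IsCent C N L) := by
  obtain ⟨K, H, hNK, hHU, hch, hbad, hcent⟩ := hC
  have hK := hch.kn
  have hH := hch.hn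
  have hN := hNL.kn
  have hL := hNL.hn
  rcases hNL.max (H ⊓ L) inferInstance (le_inf (hNK.trans hch.lt.le) hNL.lt.le) inf_le_right
    with h1 | h1
  · -- `H ⊓ L = N`
    left
    have h2 : H ⊓ (K ⊔ L) = K := by
      refine le_antisymm (fun x hx => ?_) (le_inf hch.lt.le le_sup_left)
      obtain ⟨hxH, hxs⟩ := mem_inf.1 hx
      obtain ⟨k, hk, l, hl, rfl⟩ := mem_sup_of_normal_right.1 hxs
      have h3 : l ∈ H := by
        have h4 := mul_mem (inv_mem (hch.lt.le hk)) hxH
        rwa [inv_mul_cancel_left] at h4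
      have h5 : l ∈ N := h1 ▸ mem_inf.2 ⟨h3, hl⟩
      exact mul_mem hk (hNK h5)
    have hKL : (K ⊔ L).Normal := sup_normal K L
    refine ⟨K ⊔ L, H ⊔ (K ⊔ L), le_sup_right, sup_le hHU (sup_le (hch.lt.le.trans hHU) hLU), ?_, ?_, ?_⟩
    · rw [← chief_persp hH hKL, h2]; exact hch
    · rw [← bad_persp hH hKL, h2]; exact hbad
    · rw [← isCent_persp hH hKL, h2]; exact hcent
  · have hLH : L ≤ H := by rw [← h1]; exact inf_le_left
    rcases hNL.max (L ⊓ K) inferInstance (le_inf hNL.lt.le hNK) inf_le_left with h2 | h2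
    · right
      have h3 : L ⊔ K = H := by
        rcases hch.max (L ⊔ K) (sup_normal L K) le_sup_right (sup_le hLH hch.lt.le) with h4 | h4
        · exfalso
          have h5 : L ≤ K := by rw [← h4]; exact le_sup_left
          rw [inf_eq_left.2 h5] at h2
          exact hNL.lt.ne h2.symm
        · exact h4
      constructor
      · have h4 := bad_persp (A := L) (B := K) hL hK p
        rw [h2, h3] at h4
        exact h4.2 hbad
      · have h4 := isCent_persp (A := L) (B := K) (C := C) hL hK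
        rw [h2, h3] at h4
        exact h4.2 hcent
    · left
      have h5 : L ≤ K := inf_eq_left.1 h2
      exact ⟨K, H, h5, hHU, hch, hbad, hcent⟩

/-- existence of a minimal normal subgroup above `N` -/
theorem exists_chief {U N : Subgroup X} (hU : U.Normal) (hN : N.Normal) (hNU : N < U)
    (hfin : N.relIndex U ≠ 0) : ∃ L ≤ U, Chief N L := by
  classical
  have hex : ∃ n, ∃ L : Subgroup X, L.Normal ∧ N < L ∧ L ≤ U ∧ N.relIndex L = n :=
    ⟨_, U, hU, hNU, le_rfl, rfl⟩
  obtain ⟨L, hL, hNL, hLU, hLn⟩ := Nat.find_spec hex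
  refine ⟨L, hLU, hN, hL, hNL, fun M hM h1 h2 => ?_⟩
  by_cases hMN : M = N
  · exact Or.inl hMN
  right
  have hlt : N < M := lt_of_le_of_ne h1 (Ne.symm hMN)
  have h3 := Nat.find_min' hex ⟨M, hM, hlt, h2.trans hLU, rfl⟩
  have h4 := relIndex_mul_relIndex N M L h1 h2
  have h5 : N.relIndex L ≠ 0 := by
    intro h
    apply hfin
    rw [← relIndex_mul_relIndex N L U hNL.le hLU, h, zero_mul]
  rw [← hLn, ← h4] at h3
  have h6 : N.relIndex M ≠ 0 := by
    intro h
    rw [h, zero_mul] at h4
    exact h5 h4.symm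
  have h7 : M.relIndex L = 1 := by
    have h8 : M.relIndex L ≠ 0 := by
      intro h
      rw [h, mul_zero] at h4
      exact h5 h4.symm
    have h9 : N.relIndex M * M.relIndex L ≤ N.relIndex M * 1 := by rw [mul_one]; exact h3
    have h10 := Nat.le_of_mul_le_mul_left h9 (Nat.pos_of_ne_zero h6)
    omega
  exact le_antisymm h2 (relIndex_eq_one.1 h7)

/-- counting centralisers of bad chief factors by a weight -/
theorem count {p q : ℕ} {U J : Subgroup X} (hU : U.Normal) (w : Subgroup X → ℕ)
    (hfin : J.relIndex U ≠ 0) (hw1 : 1 ≤ w U)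
    (hmono : ∀ N L : Subgroup X, N.Normal → L.Normal → J ≤ N → N ≤ L → L ≤ U → w L ≤ w N)
    (hstep : ∀ N L : Subgroup X, J ≤ N → L ≤ U → Chief N L → Bad p N L → q * w L ≤ w N) :
    ∀ (n : ℕ) (N : Subgroup X), N.Normal → J ≤ N → N ≤ U → N.relIndex U ≤ n →
      ∀ F : Finset (Subgroup X), (∀ C ∈ F, C ∈ Dset p U N) → q ^ F.card ≤ w N := by
  classical
  intro n
  induction n with
  | zero =>
    intro N _ hJN hNU hn
    exfalso
    apply hfin
    rw [← relIndex_mul_relIndex J N U hJN hNU, Nat.le_zero.1 hn, mul_zero]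
  | succ n ih =>
    intro N hN hJN hNU hn F hF
    have hfinN : N.relIndex U ≠ 0 := by
      intro h
      apply hfin
      rw [← relIndex_mul_relIndex J N U hJN hNU, h, mul_zero]
    by_cases heq : N = U
    · subst heq
      have hF0 : F = ∅ := by
        rw [Finset.eq_empty_iff_forall_notMem]
        intro C hC
        obtain ⟨K, H, hNK, hHU, hch, -⟩ := hF C hC
        exact absurd hch.lt (not_lt_of_ge (hHU.trans hNK))
      rw [hF0, Finset.card_empty, pow_zero]
      exact hw1
    have hlt : N < U := lt_of_le_of_ne hNU heq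
    obtain ⟨L, hLU, hch⟩ := exists_chief hU hN hlt hfinN
    have hLn : L.relIndex U ≤ n := by
      have h1 := relIndex_mul_relIndex N L U hch.lt.le hLU
      have h2 : N.relIndex L ≠ 1 := by
        intro h
        exact absurd (relIndex_eq_one.1 h) (not_le_of_gt hch.lt)
      have h3 : L.relIndex U ≠ 0 := by
        intro h
        rw [h, mul_zero] at h1
        exact hfinN h1.symm
      have h4 : N.relIndex L ≠ 0 := by
        intro h
        rw [h, zero_mul] at h1
        exact hfinN h1.symm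
      have h5 : 2 * L.relIndex U ≤ N.relIndex L * L.relIndex U :=
        Nat.mul_le_mul_right _ (by omega)
      omega
    have hIH := ih L hch.hn (hJN.trans hch.lt.le) hLU hLn
    by_cases hb : Bad p N L
    · set F' := F.filter (fun C => C ∈ Dset p U L) with hF'
      have h1 := hIH F' (fun C hC => (Finset.mem_filter.1 hC).2)
      have h2 : (F \ F').card ≤ 1 := by
        rw [Finset.card_le_one]
        intro a ha b hb'
        rw [Finset.mem_sdiff, hF', Finset.mem_filter] at ha hb'
        have ha2 := (dset_step hch hLU (hF a ha.1)).resolve_left fun h => ha.2 ⟨ha.1, h⟩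
        have hb2 := (dset_step hch hLU (hF b hb'.1)).resolve_left fun h => hb'.2 ⟨hb'.1, h⟩
        ext x
        rw [ha2.2 x, hb2.2 x]
      have h3 : F.card ≤ F'.card + 1 := by
        have h4 := Finset.card_sdiff_add_card_eq_card (Finset.filter_subset (fun C => C ∈ Dset p U L) F)
        rw [← hF'] at h4
        omega
      rcases Nat.eq_zero_or_pos q with hq | hq
      · subst hq
        rcases Nat.eq_zero_or_pos F.card with h0 | h0
        · rw [h0, pow_zero]
          exact hw1.trans (hmono N U hN hU hJN hNU le_rfl)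
        · rw [zero_pow h0.ne']
          exact Nat.zero_le _
      calc q ^ F.card ≤ q ^ (F'.card + 1) := Nat.pow_le_pow_right hq h3
        _ = q * q ^ F'.card := by rw [pow_succ, mul_comm]
        _ ≤ q * w L := Nat.mul_le_mul_left _ h1
        _ ≤ w N := hstep N L hJN hLU hch hb
    · refine (hIH F fun C hC => ?_).trans (hmono N L hN hch.hn hJN hch.lt.le hLU)
      rcases dset_step hch hLU (hF C hC) with h1 | h1
      · exact h1
      · exact absurd h1.1 hb

end H12.TF
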