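import Pool.Agent.H12.TF.Weight

/-!
# Nonabelian chief factors of groups with Sylow subgroups of bounded rank

`Syl U d`: in every finite quotient `X ⧸ J` (`J ≤ U`) there is a subgroup `Y` containing `U / J` whose
Sylow subgroups are generated by `d` elements.
`tf_main`: then for every `n` there is a normal subgroup `X₁ ≤ U` of finite index such that all
nonabelian chief factors of `X` inside `X₁` have order prime to all primes `≤ n`.
-/

set_option autoImplicit false

namespace H12.TF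

open Subgroup
open scoped commutatorElement

variable {X : Type*} [Group X]

/-- bounded number of generators of Sylow subgroups -/
def Syl (U : Subgroup X) (d : ℕ) : Prop :=
  ∀ (J : Subgroup X) [J.Normal], J.FiniteIndex → J ≤ U → ∀ p : ℕ, p.Prime →
    ∃ (Y : Subgroup (X ⧸ J)) (P : Subgroup Y), U.map (QuotientGroup.mk' J) ≤ Y ∧ IsPGroup p P ∧
      ¬ p ∣ P.index ∧ ∃ S : Finset P, S.card ≤ d ∧ closure (S : Set P) = ⊤

theorem exists_cent {K H : Subgroup X} (hK : K.Normal) :
    ∃ C : Subgroup X, IsCent C K H := by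
  refine ⟨{ carrier := {x | ∀ h ∈ H, ⁅x, h⁆ ∈ K}
            one_mem' := fun h _ => by rw [commutatorElement_one_left]; exact K.one_mem
            mul_mem' := ?_
            inv_mem' := ?_ }, fun x => Iff.rfl⟩
  · intro x y hx hy h hh
    have h1 : ⁅x * y, h⁆ = (x * ⁅y, h⁆ * x⁻¹) * ⁅x, h⁆ := by
      simp only [commutatorElement_def]; group
    rw [h1]
    exact K.mul_mem (hK.conj_mem _ (hy h hh) x) (hx h hh)
  · intro x hx h hh
    have h1 : ⁅x⁻¹, h⁆ = (x⁻¹ * ⁅x, h⁆ * x⁻¹⁻¹)⁻¹ := by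
      simp only [commutatorElement_def]; group
    rw [h1]
    exact K.inv_mem (hK.conj_mem _ (hx h hh) _)

theorem isCent_normal {C K H : Subgroup X} (hK : K.Normal) (hH : H.Normal)
    (hC : IsCent C K H) : C.Normal := by
  refine ⟨fun x hx g => ?_⟩
  rw [hC] at hx ⊢
  intro h hh
  have h1 : ⁅g * x * g⁻¹, h⁆ = g * ⁅x, g⁻¹ * h * g⁆ * g⁻¹ := by
    simp only [commutatorElement_def]; group
  rw [h1]
  refine hK.conj_mem _ (hx _ ?_) g
  have h2 := hH.conj_mem h hh g⁻¹
  rwa [inv_inv] at h2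

theorem le_cent {C K H : Subgroup X} (hK : K.Normal) (hC : IsCent C K H) : K ≤ C := by
  intro x hx
  rw [hC]
  intro h _
  exact comm_mem' hK hx h

/-- the centralisers of all bad chief factors inside `U` -/
def DU (p : ℕ) (U : Subgroup X) : Set (Subgroup X) :=
  {C | ∃ K H : Subgroup X, K.FiniteIndex ∧ H ≤ U ∧ Chief K H ∧ Bad p K H ∧ IsCent C K H}

theorem DU_card {U : Subgroup X} (hU : U.Normal) (hUf : U.FiniteIndex) {d : ℕ} (hd : Syl U d)
    {p : ℕ} (hp : p.Prime) (F : Finset (Subgroup X)) (hF : ∀ C ∈ F, C ∈ DU p U) : F.card ≤ d := by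
  classical
  choose! K H hKf hHU hch hbad hcent using hF
  set J : Subgroup X := U ⊓ ⨅ C : F, K C with hJ
  have hJn : J.Normal := by
    have h1 : (⨅ C : F, K (C : Subgroup X)).Normal :=
      normal_iInf_normal fun C => (hch C C.2).kn
    exact inferInstance
  have hJf : J.FiniteIndex := by
    have h1 : (⨅ C : F, K (C : Subgroup X)).FiniteIndex :=
      finiteIndex_iInf fun C => hKf C C.2
    exact inferInstance
  have hJU : J ≤ U := inf_le_left
  obtain ⟨Y, P, hUY, hP, hidx, S, hS, hSc⟩ := hd J hJf hJU p hp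
  have hfq : Finite (X ⧸ J) := inferInstance
  have hfin : J.relIndex U ≠ 0 := (inferInstance : (J.subgroupOf U).FiniteIndex).index_ne_zero
  have h1 := count (p := p) (q := p) hU (fun N => (DD p Y P N).index) hfin
    (Nat.one_le_iff_ne_zero.2 (inferInstance : (DD p Y P U).FiniteIndex).index_ne_zero)
    (fun N L _ _ _ h2 _ => Nat.le_of_dvd (Nat.pos_of_ne_zero
      (inferInstance : (DD p Y P N).FiniteIndex).index_ne_zero) (index_dvd_of_le (DD_mono p Y P h2)))
    (fun N L h2 h3 h4 h5 => DD_step hp Y P hP hidx h2 h4 h5 ((map_mono h3).trans hUY))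
    (J.relIndex U) J hJn le_rfl hJU le_rfl F (fun C hC => ⟨K C, H C, inf_le_right.trans
      (iInf_le (fun C : F => K (C : Subgroup X)) ⟨C, hC⟩), hHU C hC, hch C hC, hbad C hC, hcent C hC⟩)
  have h2 : (DD p Y P J).index ≤ p ^ d := by
    have h3 : frat p P ≤ DD p Y P J := le_sup_left
    refine (Nat.le_of_dvd (Nat.pos_of_ne_zero
      (inferInstance : (frat p P).FiniteIndex).index_ne_zero) (index_dvd_of_le h3)).trans ?_
    exact (frat_index hp S hSc).trans (Nat.pow_le_pow_right hp.pos hS)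
  exact (Nat.pow_le_pow_iff_right hp.one_lt).1 (h1.trans h2)

theorem DU_finite {U : Subgroup X} (hU : U.Normal) (hUf : U.FiniteIndex) {d : ℕ} (hd : Syl U d)
    {p : ℕ} (hp : p.Prime) : (DU p U).Finite := by
  by_contra hinf
  obtain ⟨F, hF, hc⟩ := (Set.not_finite.1 hinf : (DU p U).Infinite).exists_subset_card_eq (d + 1)
  have := DU_card hU hUf hd hp F (fun C hC => hF hC)
  omega

theorem tf_main {U : Subgroup X} (hU : U.Normal) (hUf : U.FiniteIndex) {d : ℕ} (hd : Syl U d)
    (n : ℕ) : ∃ X₁ : Subgroup X, X₁.Normal ∧ X₁.FiniteIndex ∧ X₁ ≤ U ∧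
      ∀ K H : Subgroup X, K.FiniteIndex → H ≤ X₁ → Chief K H →
        (¬ ∀ x ∈ H, ∀ y ∈ H, ⁅x, y⁆ ∈ K) → ∀ p : ℕ, p.Prime → p ≤ n → ¬ p ∣ K.relIndex H := by
  classical
  set D : Set (Subgroup X) := ⋃ p ∈ {p : ℕ | p.Prime ∧ p ≤ n}, DU p U with hD
  have hDf : D.Finite := by
    refine Set.Finite.biUnion ?_ fun p hp => DU_finite hU hUf hd hp.1
    exact (Set.finite_Iic n).subset fun p hp => hp.2
  have hDn : ∀ C ∈ D, C.Normal ∧ C.FiniteIndex := by
    intro C hC
    rw [hD, Set.mem_iUnion₂] at hC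
    obtain ⟨p, -, K, H, hKf, -, hch, -, hcent⟩ := hC
    have hK := le_cent hch.kn hcent
    exact ⟨isCent_normal hch.kn hch.hn hcent, finiteIndex_of_le hK⟩
  have : Finite D := hDf
  have h1 : (⨅ C : D, (C : Subgroup X)).Normal := normal_iInf_normal fun C => (hDn C C.2).1
  have h2 : (⨅ C : D, (C : Subgroup X)).FiniteIndex := finiteIndex_iInf fun C => (hDn C C.2).2
  refine ⟨U ⊓ ⨅ C : D, (C : Subgroup X), inferInstance, inferInstance, inf_le_left, ?_⟩
  intro K H hKf hH hch hab p hp hpn hdvd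
  obtain ⟨C, hC⟩ := exists_cent hch.kn (H := H)
  have hCD : C ∈ D := by
    rw [hD, Set.mem_iUnion₂]
    exact ⟨p, ⟨hp, hpn⟩, K, H, hKf, hH.trans inf_le_left, hch, ⟨hab, hdvd⟩, hC⟩
  apply hab
  intro x hx
  have h3 : x ∈ C := iInf_le (fun C : D => (C : Subgroup X)) ⟨C, hCD⟩ (hH.trans inf_le_right hx)
  exact (hC x).1 h3

end H12.TF
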