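import Mathlib

/-!
# Tate's theorem on normal complements

`tate_hom`: `G` finite, `P` a `p`-subgroup of index prime to `p`, `Φ` the subgroup of `P` generated by
commutators and `p`-th powers. If the natural map `P → P ⧸ Φ` extends to `G` then the identity of
`P` extends to `G`. (Central extensions which split over `P` split: transfer.)
-/

set_option autoImplicit false

namespace H12.TF

open Subgroup
open scoped commutatorElement

/-- splitting of central extensions by transfer -/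
theorem central_split {E A : Type*} [Group E] [CommGroup A] [Finite A] (H : Subgroup E)
    [H.FiniteIndex] (i : A →* E) (hi : ∀ a g, i a * g = g * i a) (π : H →* A)
    (hiH : ∀ a, i a ∈ H) (hπ : ∀ a, π ⟨i a, hiH a⟩ = a) (hc : H.index.Coprime (Nat.card A)) :
    ∃ ψ : E →* A, ∀ a, ψ (i a) = a := by
  obtain ⟨m, hm⟩ : ∃ m : ℕ, H.index * m ≡ 1 [MOD Nat.card A] := by
    rcases Nat.lt_or_ge 1 (Nat.card A) with h0 | h0
    · obtain ⟨m, -, hm⟩ := Nat.exists_mul_mod_eq_one_of_coprime hc h0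
      refine ⟨m, ?_⟩
      rw [Nat.ModEq, hm, Nat.mod_eq_of_lt h0]
    · have h1 : Nat.card A = 1 := le_antisymm h0 Nat.card_pos
      exact ⟨0, by rw [h1]; exact Nat.modEq_one⟩
  refine ⟨(powMonoidHom m).comp (MonoidHom.transfer π), fun a => ?_⟩
  have key : ∀ (k : ℕ) (g₀ : E), g₀⁻¹ * i a ^ k * g₀ ∈ H → g₀⁻¹ * i a ^ k * g₀ = i a ^ k := by
    intro k g₀ _
    rw [← map_pow, mul_assoc, hi, inv_mul_cancel_left]
  have h1 := MonoidHom.transfer_eq_pow π (i a) key
  have h2 : (⟨i a ^ H.index, MonoidHom.transfer_eq_pow_aux (i a) key⟩ : H) =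
      ⟨i (a ^ H.index), hiH _⟩ := Subtype.ext (map_pow i a _).symm
  rw [MonoidHom.comp_apply, powMonoidHom_apply, h1, h2, hπ, ← pow_mul]
  have h3 : a ^ (H.index * m) = a ^ 1 := by
    rw [pow_eq_pow_iff_modEq]
    exact hm.of_dvd (orderOf_dvd_natCard a)
  rw [h3, pow_one]

theorem p_meet {G : Type*} [Group G] {p : ℕ} (hp : p.Prime) [Finite G]
    (hG : IsPGroup p G) (N : Subgroup G) [N.Normal] (hN : N ≠ ⊥) :
    ∃ z ∈ N, z ≠ 1 ∧ (∀ g : G, g * z = z * g) ∧ z ^ p = 1 := by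
  have : Fact p.Prime := ⟨hp⟩
  have h1 : IsPGroup p (ConjAct G) := hG
  have hdvd : p ∣ Nat.card N := by
    obtain ⟨k, hk⟩ := IsPGroup.iff_card.mp (hG.to_subgroup N)
    have : k ≠ 0 := by
      rintro rfl
      rw [pow_zero] at hk
      exact hN (N.eq_bot_of_card_eq hk)
    rw [hk]
    exact dvd_pow_self p this
  have h2 : (1 : N) ∈ MulAction.fixedPoints (ConjAct G) N := fun g => smul_one g
  obtain ⟨b, hb, hb1⟩ := h1.exists_fixed_point_of_prime_dvd_card_of_fixed_point N hdvd h2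
  have hbc : ∀ g : G, g * (b : G) = b * g := by
    intro g
    have h3 := hb (ConjAct.toConjAct g)
    have h4 : ((ConjAct.toConjAct g • b : N) : G) = b := congrArg Subtype.val h3
    have h5 : ((ConjAct.toConjAct g • b : N) : G) = g * b * g⁻¹ := rfl
    rw [h5] at h4
    exact mul_inv_eq_iff_eq_mul.mp h4
  have hb1' : (b : G) ≠ 1 := fun h => hb1 (by ext; exact h.symm)
  obtain ⟨k, hk⟩ := (IsPGroup.iff_orderOf.mp hG) (b : G)
  have hk0 : k ≠ 0 := by
    rintro rfl
    rw [pow_zero, orderOf_eq_one_iff] at hk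
    exact hb1' hk
  obtain ⟨j, rfl⟩ := Nat.exists_eq_succ_of_ne_zero hk0
  refine ⟨(b : G) ^ p ^ j, N.pow_mem b.2 _, ?_, ?_, ?_⟩
  · intro h
    have h6 := orderOf_dvd_of_pow_eq_one h
    rw [hk] at h6
    have h7 := (Nat.pow_dvd_pow_iff_le_right hp.one_lt).mp h6
    omega
  · intro g
    exact (show Commute g (b : G) from hbc g).pow_right _
  · rw [← pow_mul, ← pow_succ, ← hk]
    exact pow_orderOf_eq_one _

/-- the subgroup generated by commutators and `p`-th powers -/
def frat (p : ℕ) (P : Type*) [Group P] : Subgroup P :=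
  closure ({z | ∃ x y : P, z = ⁅x, y⁆} ∪ {z | ∃ x : P, z = x ^ p})

instance frat_normal (p : ℕ) (P : Type*) [Group P] : (frat p P).Normal := by
  refine ⟨fun n hn g => ?_⟩
  have h : g * n * g⁻¹ = ⁅g, n⁆ * n := by rw [commutatorElement_def]; group
  rw [h]
  exact mul_mem (subset_closure (Or.inl ⟨g, n, rfl⟩)) hn

theorem frat_le_ker {p : ℕ} {P A : Type*} [Group P] [Group A] (χ : P →* A)
    (hc : ∀ x y : P, χ x * χ y = χ y * χ x) (hp : ∀ x : P, χ x ^ p = 1) :
    frat p P ≤ χ.ker := by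
  refine (closure_le _).mpr ?_
  rintro z (⟨x, y, rfl⟩ | ⟨x, rfl⟩)
  · show ⁅x, y⁆ ∈ χ.ker
    rw [MonoidHom.mem_ker, map_commutatorElement, commutatorElement_eq_one_iff_mul_comm, hc]
  · show x ^ p ∈ χ.ker
    rw [MonoidHom.mem_ker, map_pow, hp]

/-- the natural map `P → P ⧸ W` extends to `G` -/
def Ext {G : Type*} [Group G] (P : Subgroup G) (W : Subgroup P) [W.Normal] : Prop :=
  ∃ φ : G →* P ⧸ W, ∀ x : P, φ x = (x : P ⧸ W)

/-- one step of the lifting -/
theorem ext_step {G : Type*} [Group G] [Finite G] {p : ℕ} (hp : p.Prime) (P : Subgroup G)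
    (hidx : ¬ p ∣ P.index) (hΦ : Ext P (frat p P)) (W V : Subgroup P)
    [W.Normal] [V.Normal] (hVW : V ≤ W) (hc : ∀ w ∈ W, ∀ x : P, ⁅w, x⁆ ∈ V)
    (hpow : ∀ w ∈ W, w ^ p ∈ V) (hT : Ext P W) : Ext P V := by
  classical
  obtain ⟨φ, hφ⟩ := hT
  obtain ⟨φ₀, hφ₀⟩ := hΦ
  -- the central elementary abelian group `W / V`
  set q : P ⧸ V →* P ⧸ W := QuotientGroup.map V W (MonoidHom.id P) (by simpa using hVW) with hq
  set A : Subgroup (P ⧸ V) := q.ker with hA
  have hmemA : ∀ y : P ⧸ V, y ∈ A → ∃ w ∈ W, (w : P ⧸ V) = y := by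
    intro y hy
    obtain ⟨w, rfl⟩ := QuotientGroup.mk_surjective y
    refine ⟨w, ?_, rfl⟩
    rw [hA, MonoidHom.mem_ker, hq, QuotientGroup.map_mk, MonoidHom.id_apply,
      QuotientGroup.eq_one_iff] at hy
    exact hy
  have hcen : ∀ a ∈ A, ∀ y : P ⧸ V, a * y = y * a := by
    intro a ha y
    obtain ⟨w, hw, rfl⟩ := hmemA a ha
    obtain ⟨x, rfl⟩ := QuotientGroup.mk_surjective y
    have h1 : ((⁅w, x⁆ : P) : P ⧸ V) = 1 := (QuotientGroup.eq_one_iff _).2 (hc w hw x)
    have h2 : ((⁅w, x⁆ : P) : P ⧸ V) = ⁅(w : P ⧸ V), (x : P ⧸ V)⁆ := rfl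
    rw [h2, commutatorElement_eq_one_iff_mul_comm] at h1
    exact h1
  have hexp : ∀ a ∈ A, a ^ p = 1 := by
    intro a ha
    obtain ⟨w, hw, rfl⟩ := hmemA a ha
    have h1 : ((w ^ p : P) : P ⧸ V) = 1 := (QuotientGroup.eq_one_iff _).2 (hpow w hw)
    exact h1
  let _ : CommGroup A :=
    { (inferInstance : Group A) with
      mul_comm := fun a b => Subtype.ext (hcen a a.2 b) }
  -- the pullback
  set E : Subgroup (G × (P ⧸ V)) :=
    MonoidHom.eqLocus (φ.comp (MonoidHom.fst G (P ⧸ V))) (q.comp (MonoidHom.snd G (P ⧸ V)))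
    with hE
  have hEmem : ∀ z : G × (P ⧸ V), z ∈ E ↔ φ z.1 = q z.2 := fun z => Iff.rfl
  let f1 : E →* G := (MonoidHom.fst G (P ⧸ V)).comp E.subtype
  have hf1 : ∀ e : E, f1 e = (e : G × (P ⧸ V)).1 := fun e => rfl
  have hqs : Function.Surjective q := by
    intro y
    obtain ⟨x, rfl⟩ := QuotientGroup.mk_surjective y
    exact ⟨(x : P ⧸ V), rfl⟩
  have hf1s : Function.Surjective f1 := by
    intro g
    obtain ⟨y, hy⟩ := hqs (φ g)
    exact ⟨⟨(g, y), (hEmem _).2 hy.symm⟩, rfl⟩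
  let i : A →* E :=
    { toFun := fun a => ⟨(1, (a : P ⧸ V)), (hEmem _).2 (by
        rw [map_one]; exact (MonoidHom.mem_ker.1 a.2).symm)⟩
      map_one' := rfl
      map_mul' := fun a b => Subtype.ext (Prod.ext (one_mul 1).symm rfl) }
  have hi : ∀ a g, i a * g = g * i a := by
    intro a g
    refine Subtype.ext (Prod.ext ?_ ?_)
    · show (1 : G) * (g : G × (P ⧸ V)).1 = (g : G × (P ⧸ V)).1 * 1
      rw [one_mul, mul_one]
    · show (a : P ⧸ V) * (g : G × (P ⧸ V)).2 = (g : G × (P ⧸ V)).2 * a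
      exact hcen a a.2 _
  set H : Subgroup E := P.comap f1 with hH
  have hHi : H.index = P.index := P.index_comap_of_surjective hf1s
  have hmemH : ∀ e : E, e ∈ H ↔ (e : G × (P ⧸ V)).1 ∈ P := fun e => Iff.rfl
  have hπmem : ∀ h : H, ((⟨((h : E) : G × (P ⧸ V)).1, h.2⟩ : P) : P ⧸ V)⁻¹ *
      ((h : E) : G × (P ⧸ V)).2 ∈ A := by
    intro h
    rw [hA, MonoidHom.mem_ker, map_mul, map_inv]
    have h1 : φ ((h : E) : G × (P ⧸ V)).1 = q ((h : E) : G × (P ⧸ V)).2 := (hEmem _).1 (h : E).2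
    rw [← h1]
    have h2 := hφ ⟨((h : E) : G × (P ⧸ V)).1, h.2⟩
    have h3 : q ((⟨((h : E) : G × (P ⧸ V)).1, h.2⟩ : P) : P ⧸ V) =
        ((⟨((h : E) : G × (P ⧸ V)).1, h.2⟩ : P) : P ⧸ W) := rfl
    rw [h3, ← h2]
    exact inv_mul_cancel _
  let π : H →* A :=
    { toFun := fun h => ⟨_, hπmem h⟩
      map_one' := by
        refine Subtype.ext ?_
        show ((1 : P) : P ⧸ V)⁻¹ * 1 = 1
        rw [QuotientGroup.mk_one, inv_one, one_mul]
      map_mul' := by
        intro h k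
        refine Subtype.ext ?_
        show ((⟨((h : E) : G × (P ⧸ V)).1, h.2⟩ * ⟨((k : E) : G × (P ⧸ V)).1, k.2⟩ : P) : P ⧸ V)⁻¹ *
          (((h : E) : G × (P ⧸ V)).2 * ((k : E) : G × (P ⧸ V)).2) = _ * _
        rw [QuotientGroup.mk_mul, mul_inv_rev]
        have h1 := hcen _ (hπmem h) (((⟨((k : E) : G × (P ⧸ V)).1, k.2⟩ : P) : P ⧸ V)⁻¹)
        calc _ = ((⟨((k : E) : G × (P ⧸ V)).1, k.2⟩ : P) : P ⧸ V)⁻¹ *
              (((⟨((h : E) : G × (P ⧸ V)).1, h.2⟩ : P) : P ⧸ V)⁻¹ *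
                ((h : E) : G × (P ⧸ V)).2) * ((k : E) : G × (P ⧸ V)).2 := by group
          _ = _ := by rw [← h1, mul_assoc] }
  have hiH : ∀ a, i a ∈ H := fun a => P.one_mem
  have hπ : ∀ a, π ⟨i a, hiH a⟩ = a := by
    intro a
    refine Subtype.ext ?_
    show ((1 : P) : P ⧸ V)⁻¹ * (a : P ⧸ V) = a
    rw [QuotientGroup.mk_one, inv_one, one_mul]
  have hcA : H.index.Coprime (Nat.card A) := by
    rw [hHi]
    have hAp : IsPGroup p A := fun a => ⟨1, by
      rw [pow_one]; exact Subtype.ext (hexp a a.2)⟩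
    have : _root_.Fact p.Prime := ⟨hp⟩
    obtain ⟨k, hk⟩ := IsPGroup.iff_card.mp hAp
    rw [hk]
    exact Nat.Coprime.pow_right k ((Nat.Prime.coprime_iff_not_dvd hp).2 hidx).symm
  obtain ⟨ψ, hψ⟩ := central_split H i hi π hiH hπ hcA
  -- the section
  let f : E →* P ⧸ V :=
    { toFun := fun e => (e : G × (P ⧸ V)).2 * (ψ e : P ⧸ V)⁻¹
      map_one' := by
        show (1 : P ⧸ V) * ((ψ 1 : A) : P ⧸ V)⁻¹ = 1
        rw [map_one]; simp
      map_mul' := by
        intro e e'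
        show ((e : G × (P ⧸ V)).2 * (e' : G × (P ⧸ V)).2) * ((ψ (e * e') : A) : P ⧸ V)⁻¹ = _
        rw [map_mul, Subgroup.coe_mul, mul_inv_rev]
        have h1 := hcen ((ψ e : A) : P ⧸ V)⁻¹ (A.inv_mem (ψ e).2)
          ((e' : G × (P ⧸ V)).2 * ((ψ e' : A) : P ⧸ V)⁻¹)
        calc _ = (e : G × (P ⧸ V)).2 * (((e' : G × (P ⧸ V)).2 * ((ψ e' : A) : P ⧸ V)⁻¹) *
              ((ψ e : A) : P ⧸ V)⁻¹) := by group
          _ = (e : G × (P ⧸ V)).2 * (((ψ e : A) : P ⧸ V)⁻¹ *
              ((e' : G × (P ⧸ V)).2 * ((ψ e' : A) : P ⧸ V)⁻¹)) := by rw [h1]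
          _ = _ := by group }
  have hker : f1.ker ≤ f.ker := by
    intro e he
    rw [MonoidHom.mem_ker] at he ⊢
    have h1 : (e : G × (P ⧸ V)).2 ∈ A := by
      rw [hA, MonoidHom.mem_ker, ← (hEmem _).1 e.2]
      rw [hf1] at he
      rw [he, map_one]
    have h2 : e = i ⟨(e : G × (P ⧸ V)).2, h1⟩ := by
      refine Subtype.ext (Prod.ext ?_ rfl)
      exact he
    show (e : G × (P ⧸ V)).2 * ((ψ e : A) : P ⧸ V)⁻¹ = 1
    rw [h2, hψ]
    exact mul_inv_cancel _
  obtain ⟨s, hs⟩ : ∃ s : G →* P ⧸ V, ∀ e, s (f1 e) = f e := by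
    refine ⟨f1.liftOfRightInverse (Function.surjInv hf1s) (Function.rightInverse_surjInv hf1s)
      ⟨f, hker⟩, fun e => ?_⟩
    exact MonoidHom.liftOfRightInverse_comp_apply f1 _ (Function.rightInverse_surjInv hf1s)
      ⟨f, hker⟩ e
  -- correction
  have hnatE : ∀ x : P, ((x : G), (x : P ⧸ V)) ∈ E := fun x => (hEmem _).2 (hφ x)
  let χ : P →* A :=
    { toFun := fun x => ψ ⟨((x : G), (x : P ⧸ V)), hnatE x⟩
      map_one' := by
        rw [← map_one ψ]; rfl
      map_mul' := by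
        intro x y
        rw [← map_mul ψ]; rfl }
  have hχker : frat p P ≤ χ.ker :=
    frat_le_ker χ (fun x y => mul_comm _ _) (fun x => Subtype.ext (hexp _ (χ x).2))
  let χ' : G →* A := (QuotientGroup.lift (frat p P) χ hχker).comp φ₀
  have hχ' : ∀ x : P, χ' x = χ x := by
    intro x
    show QuotientGroup.lift (frat p P) χ hχker (φ₀ x) = χ x
    rw [hφ₀]
    rfl
  refine ⟨{ toFun := fun g => s g * ((χ' g : A) : P ⧸ V)
            map_one' := by rw [map_one, map_one]; simp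
            map_mul' := ?_ }, ?_⟩
  · intro g h
    rw [map_mul, map_mul, Subgroup.coe_mul]
    have h1 := hcen ((χ' g : A) : P ⧸ V) (χ' g).2 (s h)
    calc _ = s g * (s h * ((χ' g : A) : P ⧸ V)) * ((χ' h : A) : P ⧸ V) := by group
      _ = s g * (((χ' g : A) : P ⧸ V) * s h) * ((χ' h : A) : P ⧸ V) := by rw [h1]
      _ = _ := by group
  · intro x
    show s x * ((χ' x : A) : P ⧸ V) = x
    have h1 : s x = (x : P ⧸ V) * ((χ x : A) : P ⧸ V)⁻¹ :=
      hs ⟨((x : G), (x : P ⧸ V)), hnatE x⟩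
    rw [h1, hχ']
    group

/-- Tate's theorem, homomorphism form -/
theorem tate_hom {G : Type*} [Group G] [Finite G] {p : ℕ} (hp : p.Prime) (P : Subgroup G)
    (hP : IsPGroup p P) (hidx : ¬ p ∣ P.index) (hΦ : Ext P (frat p P)) :
    ∃ φ : G →* P, ∀ x : P, φ x = x := by
  classical
  have key : ∀ (n : ℕ) (W : Subgroup P) [W.Normal], Nat.card W ≤ n → Ext P W → Ext P ⊥ := by
    intro n
    induction n with
    | zero =>
      intro W _ hn _
      exact absurd (Nat.card_pos (α := W)) (by omega)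
    | succ n ih =>
      intro W _ hn hW
      by_cases hb : W = ⊥
      · subst hb
        exact hW
      -- a maximal normal subgroup of `P` below `W`
      obtain ⟨V, hVn, hVW, hVmax⟩ : ∃ V : Subgroup P, V.Normal ∧ V < W ∧
          ∀ L : Subgroup P, L.Normal → V < L → L ≤ W → L = W := by
        have hfin : {V : Subgroup P | V.Normal ∧ V < W}.Finite := Set.toFinite _
        obtain ⟨V, hV⟩ := hfin.exists_maximal ⟨⊥, inferInstance, bot_lt_iff_ne_bot.2 hb⟩
        refine ⟨V, hV.prop.1, hV.prop.2, fun L hL hVL hLW => ?_⟩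
        by_contra hne
        have h1 := hV.le_of_ge (y := L) ⟨hL, lt_of_le_of_ne hLW hne⟩ hVL.le
        exact absurd hVL (not_lt_of_ge h1)
      have hWV : W.map (QuotientGroup.mk' V) ≠ ⊥ := by
        intro h
        apply not_le_of_gt hVW
        intro w hw
        have h1 : QuotientGroup.mk' V w ∈ W.map (QuotientGroup.mk' V) := mem_map_of_mem _ hw
        rw [h, mem_bot] at h1
        exact (QuotientGroup.eq_one_iff w).1 h1
      have hmn : (W.map (QuotientGroup.mk' V)).Normal :=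
        Normal.map inferInstance _ (QuotientGroup.mk'_surjective V)
      obtain ⟨z, hzW, hz1, hzc, hzp⟩ := p_meet hp (hP.to_quotient V) (W.map (QuotientGroup.mk' V)) hWV
      have hzn : (zpowers z).Normal := by
        refine ⟨fun y hy g => ?_⟩
        obtain ⟨k, rfl⟩ := mem_zpowers_iff.1 hy
        have : g * z ^ k * g⁻¹ = z ^ k := by
          rw [((show Commute g z from hzc g).zpow_right k).eq, mul_inv_cancel_right]
        rw [this]
        exact hy
      have hL : (zpowers z).comap (QuotientGroup.mk' V) = W := by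
        refine hVmax _ inferInstance ?_ ?_
        · refine lt_of_le_of_ne ?_ ?_
          · intro v hv
            rw [mem_comap]
            have : QuotientGroup.mk' V v = 1 := (QuotientGroup.eq_one_iff v).2 hv
            rw [this]
            exact one_mem _
          · intro h
            obtain ⟨w, hw, rfl⟩ := hzW
            apply hz1
            refine (QuotientGroup.eq_one_iff w).2 ?_
            rw [h, mem_comap]
            exact mem_zpowers _
        · intro x hx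
          rw [mem_comap] at hx
          have h1 : zpowers z ≤ W.map (QuotientGroup.mk' V) := by
            rw [zpowers_le]
            exact hzW
          obtain ⟨w, hw, hwx⟩ := h1 hx
          have h2 : w⁻¹ * x ∈ V := QuotientGroup.eq.1 hwx
          have h3 : x = w * (w⁻¹ * x) := by group
          rw [h3]
          exact mul_mem hw (hVW.le h2)
      have hin : ∀ w ∈ W, ∃ k : ℤ, z ^ k = (w : P ⧸ V) := by
        intro w hw
        rw [← hL, mem_comap] at hw
        exact mem_zpowers_iff.1 hw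
      refine ih V ?_ (ext_step hp P hidx hΦ W V hVW.le ?_ ?_ hW)
      · have h1 : Nat.card V < Nat.card W := by
          refine lt_of_le_of_ne (card_le_of_le hVW.le) fun h => ?_
          exact hVW.ne (eq_of_le_of_card_ge hVW.le h.ge)
        omega
      · intro w hw x
        obtain ⟨k, hk⟩ := hin w hw
        rw [← QuotientGroup.eq_one_iff]
        have h2 : ((⁅w, x⁆ : P) : P ⧸ V) = ⁅(w : P ⧸ V), (x : P ⧸ V)⁆ := rfl
        rw [h2, commutatorElement_eq_one_iff_mul_comm, ← hk]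
        exact ((show Commute (x : P ⧸ V) z from hzc _).zpow_right k).eq.symm
      · intro w hw
        obtain ⟨k, hk⟩ := hin w hw
        rw [← QuotientGroup.eq_one_iff]
        have h2 : ((w ^ p : P) : P ⧸ V) = (w : P ⧸ V) ^ p := rfl
        rw [h2, ← hk, ← zpow_natCast, ← zpow_mul, mul_comm, zpow_mul, zpow_natCast, hzp, one_zpow]
  obtain ⟨φ, hφ⟩ := key (Nat.card (frat p P)) (frat p P) le_rfl hΦ
  let e : P ⧸ (⊥ : Subgroup P) ≃* P := QuotientGroup.quotientBot
  refine ⟨e.toMonoidHom.comp φ, fun x => ?_⟩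
  show e (φ x) = x
  rw [hφ]
  rfl

end H12.TF
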