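import Pool.Agent.H12.TF.Tate

/-!
# Tate's theorem

`tate`: `P` a `p`-subgroup of the finite group `G` of index prime to `p`, `N` normal with
`P ⊓ N ≤ Φ(P)`. Then the elements of `N` of order prime to `p` form a subgroup.
-/

set_option autoImplicit false

namespace H12.TF

open Subgroup
open scoped commutatorElement

theorem frat_map (p : ℕ) {P Q : Type*} [Group P] [Group Q] (f : P →* Q) {x : P}
    (hx : x ∈ frat p P) : f x ∈ frat p Q := by
  have h : frat p P ≤ (frat p Q).comap f := by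
    refine (closure_le _).mpr ?_
    rintro z (⟨x, y, rfl⟩ | ⟨x, rfl⟩)
    · show f ⁅x, y⁆ ∈ frat p Q
      rw [map_commutatorElement]
      exact subset_closure (Or.inl ⟨f x, f y, rfl⟩)
    · show f (x ^ p) ∈ frat p Q
      rw [map_pow]
      exact subset_closure (Or.inr ⟨f x, rfl⟩)
  exact h hx

theorem ext_of_sup {G : Type*} [Group G] {p : ℕ} (P N : Subgroup G) [N.Normal]
    (hsup : N ⊔ P = ⊤) (h : N.subgroupOf P ≤ frat p P) : Ext P (frat p P) := by
  let m : P →* G ⧸ N := (QuotientGroup.mk' N).comp P.subtype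
  have hms : Function.Surjective m := by
    intro y
    obtain ⟨g, rfl⟩ := QuotientGroup.mk_surjective y
    have hg : g ∈ P ⊔ N := by rw [sup_comm, hsup]; exact mem_top g
    obtain ⟨x, hx, n, hn, rfl⟩ := mem_sup_of_normal_right.1 hg
    refine ⟨⟨x, hx⟩, ?_⟩
    show ((x : G) : G ⧸ N) = ((x * n : G) : G ⧸ N)
    rw [QuotientGroup.eq]
    simpa using hn
  have hker : m.ker ≤ (QuotientGroup.mk' (frat p P)).ker := by
    intro x hx
    rw [QuotientGroup.ker_mk']
    apply h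
    rw [mem_subgroupOf]
    exact (QuotientGroup.eq_one_iff _).1 hx
  refine ⟨(m.liftOfRightInverse (Function.surjInv hms) (Function.rightInverse_surjInv hms)
    ⟨QuotientGroup.mk' (frat p P), hker⟩).comp (QuotientGroup.mk' N), fun x => ?_⟩
  exact MonoidHom.liftOfRightInverse_comp_apply m _ (Function.rightInverse_surjInv hms)
      ⟨QuotientGroup.mk' (frat p P), hker⟩ x

/-- Tate's theorem -/
theorem tate {G : Type*} [Group G] [Finite G] {p : ℕ} (hp : p.Prime) (P N : Subgroup G)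
    [N.Normal] (hP : IsPGroup p P) (hidx : ¬ p ∣ P.index)
    (h : ∀ x : P, (x : G) ∈ N → x ∈ frat p P) :
    ∀ x ∈ N, ∀ y ∈ N, ¬ p ∣ orderOf x → ¬ p ∣ orderOf y → ¬ p ∣ orderOf (x * y) := by
  set K : Subgroup G := N ⊔ P with hK
  have hPK : P ≤ K := le_sup_right
  have hNK : N ≤ K := le_sup_left
  set P0 : Subgroup K := P.subgroupOf K with hP0
  set N0 : Subgroup K := N.subgroupOf K with hN0
  have hN0n : N0.Normal := Normal.subgroupOf inferInstance K
  have hsup : N0 ⊔ P0 = ⊤ := by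
    rw [eq_top_iff]
    rintro ⟨g, hg⟩ -
    have hg' : g ∈ P ⊔ N := by rw [sup_comm]; exact hg
    obtain ⟨x, hx, n, hn, rfl⟩ := mem_sup_of_normal_right.1 hg'
    have h1 : (⟨x * n, hg⟩ : K) = ⟨x, hPK hx⟩ * ⟨n, hNK hn⟩ := rfl
    rw [h1]
    exact mul_mem ((le_sup_right : P0 ≤ N0 ⊔ P0) (mem_subgroupOf.2 hx))
      ((le_sup_left : N0 ≤ N0 ⊔ P0) (mem_subgroupOf.2 hn))
  have hP0p : IsPGroup p P0 := hP.of_equiv (subgroupOfEquivOfLe hPK).symm
  have hidx0 : ¬ p ∣ P0.index := by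
    intro h1
    apply hidx
    have h2 : P.relIndex K * K.index = P.index := relIndex_mul_index hPK
    rw [← h2]
    exact Dvd.dvd.mul_right h1 _
  have hfr : N0.subgroupOf P0 ≤ frat p P0 := by
    intro z hz
    have h1 : ((subgroupOfEquivOfLe hPK z : P) : G) ∈ N := by
      have h2 : (z : K) ∈ N0 := mem_subgroupOf.1 hz
      exact mem_subgroupOf.1 h2
    have h2 := frat_map p (subgroupOfEquivOfLe hPK).symm.toMonoidHom (h _ h1)
    have h3 : (subgroupOfEquivOfLe hPK).symm.toMonoidHom (subgroupOfEquivOfLe hPK z) = z :=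
      (subgroupOfEquivOfLe hPK).symm_apply_apply z
    rwa [h3] at h2
  obtain ⟨φ, hφ⟩ := tate_hom hp P0 hP0p hidx0 (ext_of_sup P0 N0 hsup hfr)
  have hφs : Function.Surjective φ := fun x => ⟨x, hφ x⟩
  have hcard : Nat.card φ.ker = P0.index := by
    have h1 : φ.ker.index = Nat.card P0 := by
      rw [index_ker, MonoidHom.range_eq_top.2 hφs]
      exact card_top
    have h2 := φ.ker.card_mul_index
    have h3 := P0.card_mul_index
    rw [h1] at h2
    have h4 : Nat.card P0 * Nat.card φ.ker = Nat.card P0 * P0.index := by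
      rw [mul_comm, h2, h3]
    exact Nat.eq_of_mul_eq_mul_left Nat.card_pos h4
  have hto : ∀ z : K, φ z = 1 → ¬ p ∣ orderOf z := by
    intro z hz hd
    apply hidx0
    rw [← hcard]
    exact hd.trans (orderOf_dvd_natCard φ.ker (φ.mem_ker.2 hz))
  have hfrom : ∀ z : K, ¬ p ∣ orderOf z → φ z = 1 := by
    intro z hz
    have h1 : orderOf (φ z) ∣ orderOf z := orderOf_map_dvd φ z
    have : _root_.Fact p.Prime := ⟨hp⟩
    obtain ⟨k, hk⟩ := IsPGroup.iff_orderOf.1 hP0p (φ z)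
    rw [← orderOf_eq_one_iff, hk]
    rcases Nat.eq_zero_or_pos k with rfl | hk0
    · rw [pow_zero]
    · exact absurd ((dvd_pow_self p hk0.ne').trans (hk ▸ h1)) hz
  intro x hx y hy hox hoy
  have e1 : orderOf (⟨x, hNK hx⟩ : K) = orderOf x := Subgroup.orderOf_mk _ _
  have e2 : orderOf (⟨y, hNK hy⟩ : K) = orderOf y := Subgroup.orderOf_mk _ _
  have e3 : orderOf (⟨x, hNK hx⟩ * ⟨y, hNK hy⟩ : K) = orderOf (x * y) := Subgroup.orderOf_mk _ _
  have h1 := hfrom ⟨x, hNK hx⟩ (by rwa [e1])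
  have h2 := hfrom ⟨y, hNK hy⟩ (by rwa [e2])
  have h3 := hto (⟨x, hNK hx⟩ * ⟨y, hNK hy⟩) (by rw [map_mul, h1, h2, one_mul])
  rwa [e3] at h3

end H12.TF
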