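import Pool.Agent.H12.TF.Factor
import Pool.Agent.H12.TF.Chief

/-!
# The weight of a normal subgroup

`Y` a subgroup of the finite group `X ⧸ J`, `P` a Sylow `p`-subgroup of `Y`; for a normal subgroup `N`
of `X` the weight is the index in `P` of `Φ(P) (P ⊓ N)`. By Tate's theorem it drops at every
nonabelian chief factor of order divisible by `p`.
-/

set_option autoImplicit false

namespace H12.TF

open Subgroup
open scoped commutatorElement

variable {X : Type*} [Group X]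

/-- the trace of `N` in `Y` -/
def NY {J : Subgroup X} [J.Normal] (Y : Subgroup (X ⧸ J)) (N : Subgroup X) : Subgroup Y :=
  (N.map (QuotientGroup.mk' J)).subgroupOf Y

theorem NY_normal {J : Subgroup X} [J.Normal] (Y : Subgroup (X ⧸ J)) {N : Subgroup X}
    (hN : N.Normal) : (NY Y N).Normal := by
  have : (N.map (QuotientGroup.mk' J)).Normal := hN.map _ (QuotientGroup.mk'_surjective J)
  exact Normal.subgroupOf this Y

theorem NY_mono {J : Subgroup X} [J.Normal] (Y : Subgroup (X ⧸ J)) {N L : Subgroup X}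
    (h : N ≤ L) : NY Y N ≤ NY Y L := fun _ hx => mem_subgroupOf.2 (map_mono h (mem_subgroupOf.1 hx))

theorem mem_NY {J : Subgroup X} [J.Normal] {Y : Subgroup (X ⧸ J)} {N : Subgroup X} (hJN : J ≤ N)
    {x : X} (hx : (x : X ⧸ J) ∈ Y) : (⟨(x : X ⧸ J), hx⟩ : Y) ∈ NY Y N ↔ x ∈ N := by
  unfold NY
  rw [mem_subgroupOf]
  constructor
  · rintro ⟨n, hn, h⟩
    have h1 : n⁻¹ * x ∈ J := QuotientGroup.eq.1 h
    have h2 := mul_mem hn (hJN h1)
    rwa [mul_inv_cancel_left] at h2
  · intro h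
    exact mem_map_of_mem _ h

/-- `Φ(P) (P ⊓ N)` -/
def DD (p : ℕ) {J : Subgroup X} [J.Normal] (Y : Subgroup (X ⧸ J)) (P : Subgroup Y)
    (N : Subgroup X) : Subgroup P := frat p P ⊔ (NY Y N).subgroupOf P

theorem DD_mono (p : ℕ) {J : Subgroup X} [J.Normal] (Y : Subgroup (X ⧸ J)) (P : Subgroup Y)
    {N L : Subgroup X} (h : N ≤ L) : DD p Y P N ≤ DD p Y P L :=
  sup_le_sup_left (fun _ hx => mem_subgroupOf.2 (NY_mono Y h (mem_subgroupOf.1 hx))) _

theorem fin_quot {G : Type*} [Group G] {H : Subgroup G} (h : H.index ≠ 0) : Finite (G ⧸ H) :=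
  (Nat.card_ne_zero.1 h).2

/-- a finite nontrivial `p`-group is not perfect, relative form -/
theorem chief_pgroup {p : ℕ} (hp : p.Prime) {N L : Subgroup X} (hch : Chief N L)
    (hfin : N.relIndex L ≠ 0) (h : ∀ x ∈ L, ∃ k : ℕ, x ^ p ^ k ∈ N) :
    ∀ x ∈ L, ∀ y ∈ L, ⁅x, y⁆ ∈ N := by
  have hN := hch.kn
  have hL := hch.hn
  have : _root_.Fact p.Prime := ⟨hp⟩
  have hcl : ⁅L, L⁆ ≤ L := commutator_le_left L L
  rcases hch.max (⁅L, L⁆ ⊔ N) (sup_normal _ _) le_sup_right (sup_le hcl hch.lt.le) with h1 | h1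
  · intro x hx y hy
    rw [← h1]
    exact mem_sup_left (commutator_mem_commutator hx hy)
  · exfalso
    have hn : (N.subgroupOf L).Normal := Normal.subgroupOf hN L
    have hf : Finite (L ⧸ N.subgroupOf L) := fin_quot hfin
    have hpg : IsPGroup p (L ⧸ N.subgroupOf L) := by
      intro y
      obtain ⟨x, rfl⟩ := QuotientGroup.mk_surjective y
      obtain ⟨k, hk⟩ := h x x.2
      refine ⟨k, ?_⟩
      have : ((x ^ p ^ k : L) : L ⧸ N.subgroupOf L) = 1 :=
        (QuotientGroup.eq_one_iff _).2 (mem_subgroupOf.2 hk)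
      exact this
    have hnil := hpg.isNilpotent
    have hsol : Group.IsSolvable (L ⧸ N.subgroupOf L) := inferInstance
    have hnt : Nontrivial (L ⧸ N.subgroupOf L) := by
      rw [QuotientGroup.nontrivial_iff]
      intro h2
      rw [subgroupOf_eq_top] at h2
      exact absurd h2 (not_le_of_gt hch.lt)
    have hlt := Group.IsSolvable.commutator_lt_top_of_nontrivial (L ⧸ N.subgroupOf L)
    apply hlt.ne
    rw [eq_top_iff]
    intro y _
    obtain ⟨x, rfl⟩ := QuotientGroup.mk_surjective y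
    have h3 : (x : X) ∈ ⁅L, L⁆ ⊔ N := by rw [h1]; exact x.2
    obtain ⟨c, hc, n, hn', hcn⟩ := mem_sup_of_normal_right.1 h3
    have h4 : c ∈ (commutator L).map L.subtype := by
      rw [map_subtype_commutator]
      exact hc
    obtain ⟨c', hc', hcc⟩ := h4
    have h5 : ((c' : L) : L ⧸ N.subgroupOf L) = x := by
      rw [QuotientGroup.eq]
      rw [mem_subgroupOf]
      show (c' : X)⁻¹ * x ∈ N
      have h6 : (c' : X) = c := hcc
      rw [h6, ← hcn, inv_mul_cancel_left]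
      exact hn'
    rw [← h5]
    have h7 : (commutator L).map (QuotientGroup.mk' (N.subgroupOf L)) ≤
        commutator (L ⧸ N.subgroupOf L) := by
      rw [_root_.commutator_def, map_commutator, _root_.commutator_def]
      exact commutator_mono le_top le_top
    exact h7 (mem_map_of_mem _ hc')

/-- the weight drops at bad chief factors -/
theorem DD_lt {p : ℕ} (hp : p.Prime) {J : Subgroup X} [J.Normal] [Finite (X ⧸ J)]
    (Y : Subgroup (X ⧸ J)) (P : Subgroup Y) (hP : IsPGroup p P) (hidx : ¬ p ∣ P.index)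
    {N L : Subgroup X} (hJN : J ≤ N) (hch : Chief N L) (hbad : Bad p N L)
    (hLY : L.map (QuotientGroup.mk' J) ≤ Y) : ¬ DD p Y P L ≤ DD p Y P N := by
  intro hle
  have hN := hch.kn
  have hL := hch.hn
  have hNYn : (NY Y N).Normal := NY_normal Y hN
  have hLYn : (NY Y L).Normal := NY_normal Y hL
  have hJL : J ≤ L := hJN.trans hch.lt.le
  set π := QuotientGroup.mk' (NY Y N) with hπ
  have hπs : Function.Surjective π := QuotientGroup.mk'_surjective _
  have hLbn : ((NY Y L).map π).Normal := hLYn.map _ hπs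
  have hidx' : ¬ p ∣ (P.map π).index := fun h => hidx (h.trans (index_map_dvd P hπs))
  have htate := tate hp (P.map π) ((NY Y L).map π) (hP.map π) hidx' (by
    rintro ⟨x, hx⟩ hxL
    obtain ⟨u, hu, rfl⟩ := hx
    obtain ⟨v, hv, hvu⟩ := hxL
    have h1 : v⁻¹ * u ∈ NY Y N := QuotientGroup.eq.1 hvu
    have h2 : u ∈ NY Y L := by
      have h3 := mul_mem hv (NY_mono Y hch.lt.le h1)
      rwa [mul_inv_cancel_left] at h3
    have h4 : (⟨u, hu⟩ : P) ∈ DD p Y P N := hle (mem_sup_right (mem_subgroupOf.2 h2))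
    have hnn : ((NY Y N).subgroupOf P).Normal := Normal.subgroupOf hNYn P
    obtain ⟨f, hf, n, hn, hfn⟩ := mem_sup_of_normal_right.1 h4
    have h5 := frat_map p (π.subgroupMap P) hf
    have h6 : π.subgroupMap P f = ⟨π u, mem_map_of_mem _ hu⟩ := by
      refine Subtype.ext ?_
      show π (f : Y) = π u
      have h7 : (f : Y) * (n : Y) = u := congrArg Subtype.val hfn
      rw [← h7, map_mul]
      have h8 : π (n : Y) = 1 := (QuotientGroup.eq_one_iff _).2 (mem_subgroupOf.1 hn)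
      rw [h8, mul_one]
    rw [h6] at h5
    exact h5)
  -- passage to `X`
  have hY : ∀ x ∈ L, (x : X ⧸ J) ∈ Y := fun x hx => hLY (mem_map_of_mem _ hx)
  have hord : ∀ (x : X) (hx : x ∈ L) (m : ℕ),
      (π (⟨(x : X ⧸ J), hY x hx⟩ : Y)) ^ m = 1 ↔ x ^ m ∈ N := by
    intro x hx m
    rw [← map_pow, hπ]
    have h1 : (⟨(x : X ⧸ J), hY x hx⟩ : Y) ^ m =
        ⟨((x ^ m : X) : X ⧸ J), hY _ (pow_mem hx m)⟩ := rfl
    rw [h1]
    have h2 := QuotientGroup.eq_one_iff (N := NY Y N)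
      (⟨((x ^ m : X) : X ⧸ J), hY _ (pow_mem hx m)⟩ : Y)
    rw [mem_NY hJN] at h2
    exact h2
  let T : Subgroup X :=
    { carrier := {x | x ∈ L ∧ ∃ m : ℕ, ¬ p ∣ m ∧ x ^ m ∈ N}
      one_mem' := ⟨L.one_mem, 1, by rw [Nat.dvd_one]; exact hp.ne_one, by
        rw [one_pow]; exact N.one_mem⟩
      inv_mem' := by
        rintro x ⟨hx, m, hm, hxm⟩
        exact ⟨L.inv_mem hx, m, hm, by rw [inv_pow]; exact N.inv_mem hxm⟩
      mul_mem' := by
        rintro x y ⟨hx, m, hm, hxm⟩ ⟨hy, k, hk, hyk⟩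
        refine ⟨L.mul_mem hx hy, ?_⟩
        have h1 := htate (π (⟨(x : X ⧸ J), hY x hx⟩ : Y))
          (mem_map_of_mem _ ((mem_NY hJL (hY x hx)).2 hx))
          (π (⟨(y : X ⧸ J), hY y hy⟩ : Y))
          (mem_map_of_mem _ ((mem_NY hJL (hY y hy)).2 hy))
          (fun h => hm (h.trans (orderOf_dvd_of_pow_eq_one ((hord x hx m).2 hxm))))
          (fun h => hk (h.trans (orderOf_dvd_of_pow_eq_one ((hord y hy k).2 hyk))))
        refine ⟨_, h1, ?_⟩
        rw [← hord (x * y) (L.mul_mem hx hy)]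
        exact pow_orderOf_eq_one _ }
  have hTmem : ∀ x, x ∈ T ↔ x ∈ L ∧ ∃ m : ℕ, ¬ p ∣ m ∧ x ^ m ∈ N := fun _ => Iff.rfl
  have hTn : T.Normal := by
    refine ⟨fun x hx g => ?_⟩
    rw [hTmem] at hx ⊢
    obtain ⟨hx, m, hm, hxm⟩ := hx
    exact ⟨hL.conj_mem x hx g, m, hm, by rw [conj_pow]; exact hN.conj_mem _ hxm g⟩
  have hfin : N.relIndex L ≠ 0 := by
    have h1 : J.FiniteIndex := finiteIndex_of_finite_quotient
    have h2 : J.relIndex L ≠ 0 := by
      have h3 := (inferInstance : (J.subgroupOf L).FiniteIndex).index_ne_zero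
      exact h3
    intro h
    apply h2
    rw [← relIndex_mul_relIndex J N L hJN hch.lt.le, h, mul_zero]
  rcases hch.max T hTn (fun x hx => (hTmem x).2 ⟨hch.lt.le hx, 1, by
      rw [Nat.dvd_one]; exact hp.ne_one, by rw [pow_one]; exact hx⟩)
      (fun x hx => ((hTmem x).1 hx).1) with h1 | h1
  · -- `L / N` is a `p`-group
    apply hbad.1
    refine chief_pgroup hp hch hfin fun x hx => ?_
    have hn : (N.subgroupOf L).Normal := Normal.subgroupOf hN L
    have hf : Finite (L ⧸ N.subgroupOf L) := fin_quot hfin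
    set o := orderOf (((⟨x, hx⟩ : L) : L ⧸ N.subgroupOf L)) with ho
    have ho0 : o ≠ 0 := (orderOf_pos _).ne'
    have hxo : x ^ o ∈ N := by
      have h2 : (((⟨x, hx⟩ : L) ^ o : L) : L ⧸ N.subgroupOf L) = 1 :=
        pow_orderOf_eq_one ((⟨x, hx⟩ : L) : L ⧸ N.subgroupOf L)
      exact mem_subgroupOf.1 ((QuotientGroup.eq_one_iff _).1 h2)
    obtain ⟨k, m, hm, hkm⟩ := Nat.exists_eq_pow_mul_and_not_dvd ho0 p hp.ne_one
    refine ⟨k, ?_⟩
    rw [← h1, hTmem]
    refine ⟨pow_mem hx _, m, hm, ?_⟩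
    rw [← pow_mul, ← hkm]
    exact hxo
  · -- `p` does not divide `|L / N|`
    have hn : (N.subgroupOf L).Normal := Normal.subgroupOf hN L
    have hf : Finite (L ⧸ N.subgroupOf L) := fin_quot hfin
    have : _root_.Fact p.Prime := ⟨hp⟩
    have hd : p ∣ Nat.card (L ⧸ N.subgroupOf L) := hbad.2
    obtain ⟨y, hy⟩ := exists_prime_orderOf_dvd_card' p hd
    obtain ⟨x, hxy⟩ := QuotientGroup.mk_surjective y
    rw [← hxy] at hy
    have hx : (x : X) ∈ T := by rw [h1]; exact x.2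
    obtain ⟨-, m, hm, hxm⟩ := (hTmem _).1 hx
    apply hm
    rw [← hy]
    apply orderOf_dvd_of_pow_eq_one
    have h2 : ((x ^ m : L) : L ⧸ N.subgroupOf L) = 1 :=
      (QuotientGroup.eq_one_iff _).2 (mem_subgroupOf.2 hxm)
    exact h2

/-- the weight drops by a factor at least `p` -/
theorem DD_step {p : ℕ} (hp : p.Prime) {J : Subgroup X} [J.Normal] [Finite (X ⧸ J)]
    (Y : Subgroup (X ⧸ J)) (P : Subgroup Y) (hP : IsPGroup p P) (hidx : ¬ p ∣ P.index)
    {N L : Subgroup X} (hJN : J ≤ N) (hch : Chief N L) (hbad : Bad p N L)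
    (hLY : L.map (QuotientGroup.mk' J) ≤ Y) :
    p * (DD p Y P L).index ≤ (DD p Y P N).index := by
  have h1 := DD_mono p Y P hch.lt.le
  have h2 := DD_lt hp Y P hP hidx hJN hch hbad hLY
  rw [← relIndex_mul_index h1]
  refine Nat.mul_le_mul_right _ ?_
  have h3 : (DD p Y P N).relIndex (DD p Y P L) ≠ 1 := fun h => h2 (relIndex_eq_one.1 h)
  have : _root_.Fact p.Prime := ⟨hp⟩
  obtain ⟨k, hk⟩ := IsPGroup.iff_card.1 hP
  have h4 : (DD p Y P N).relIndex (DD p Y P L) ∣ p ^ k := by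
    rw [← hk, ← (DD p Y P N).card_mul_index, ← relIndex_mul_index h1]
    exact Dvd.dvd.mul_left (Dvd.intro _ rfl) _
  obtain ⟨j, -, hj⟩ := (Nat.dvd_prime_pow hp).1 h4
  rw [hj] at h3 ⊢
  rcases Nat.eq_zero_or_pos j with rfl | hj0
  · rw [pow_zero] at h3
    exact absurd rfl h3
  · exact Nat.le_of_dvd (pow_pos hp.pos j) (dvd_pow_self p hj0.ne')

end H12.TF
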